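import Pool.Agent.H317I.Moment

set_option autoImplicit false
open Finset

namespace Pool.Agent.H317I

/-- Algebraic part: if one of the finitely many odd functions is stable around `y₀`, its mean does not vanish. -/
theorem nonvanish {Y : Type} [Fintype Y] (π : Y → ℝ) (hπ0 : ∀ y, 0 ≤ π y) (hπ1 : ∑ y, π y = 1)
    (m : ℕ) (hm : 0 < m) (h : Fin m → Y → ℝ) (hv : ∀ b y, h b y = 0 ∨ h b y = 1 ∨ h b y = -1)
    (G : Y → Prop) (y₀ : Y) [DecidablePred G]
    (hGm : ∑ y, (if G y then 0 else π y) ≤ 1 / 10)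
    [∀ y, DecidablePred fun b => h b y ≠ h b y₀] [DecidablePred fun b => h b y₀ = 0]
    (h1 : ∀ y, G y → 5 * (univ.filter fun b => h b y ≠ h b y₀).card < m)
    (h2 : 5 * (univ.filter fun b => h b y₀ = 0).card < m) :
    ∃ b, ∑ y, π y * h b y ≠ 0 := by
  classical
  by_contra hcon
  push Not at hcon
  set D : Fin m → ℝ := fun b => ∑ y, (if h b y ≠ h b y₀ then π y else 0) with hD
  have hD0 : ∀ b, 0 ≤ D b := fun b => Finset.sum_nonneg fun y _ => by
    have := hπ0 y
    split_ifs <;> simp [this]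
  have hDge : ∀ b, h b y₀ ≠ 0 → 1 / 2 ≤ D b := by
    intro b hb
    have hs : h b y₀ = 1 ∨ h b y₀ = -1 := by
      rcases hv b y₀ with h | h | h
      · exact absurd h hb
      · exact Or.inl h
      · exact Or.inr h
    have hpt : ∀ y, π y * 1 - 2 * (if h b y ≠ h b y₀ then π y else 0) ≤ (π y * h b y) * h b y₀ := by
      intro y
      have hp := hπ0 y
      by_cases he : h b y = h b y₀
      · rw [if_neg (by simpa using he), he]
        rcases hs with hs | hs <;> rw [hs] <;> linarith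
      · rw [if_pos he]
        rcases hs with hs | hs <;> rcases hv b y with h' | h' | h' <;> rw [hs, h'] <;> nlinarith
    have hsum := Finset.sum_le_sum fun y (_ : y ∈ univ) => hpt y
    rw [Finset.sum_sub_distrib, ← Finset.sum_mul, hπ1, ← Finset.mul_sum, ← Finset.sum_mul, hcon b] at hsum
    have : (∑ y, (if h b y ≠ h b y₀ then π y else 0)) = D b := rfl
    rw [this] at hsum
    linarith
  have hsumD : ∑ b, D b ≤ (m : ℝ) * (3 / 10) := by
    simp only [hD]
    rw [Finset.sum_comm]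
    have hpt : ∀ y, ∑ b, (if h b y ≠ h b y₀ then π y else 0) ≤ (m : ℝ) / 5 * π y + m * (if G y then 0 else π y) := by
      intro y
      have hp := hπ0 y
      rw [← Finset.sum_filter, Finset.sum_const, nsmul_eq_mul]
      by_cases hg : G y
      · rw [if_pos hg]
        have := h1 y hg
        have h' : (5 : ℝ) * ((univ.filter fun b => h b y ≠ h b y₀).card : ℝ) ≤ m := by exact_mod_cast this.le
        nlinarith
      · rw [if_neg hg]
        have : ((univ.filter fun b => h b y ≠ h b y₀).card : ℝ) ≤ m := by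
          have := Finset.card_le_univ (univ.filter fun b : Fin m => h b y ≠ h b y₀)
          rw [Fintype.card_fin] at this
          exact_mod_cast this
        have hm0 : (0 : ℝ) ≤ m := by positivity
        nlinarith
    refine (Finset.sum_le_sum fun y _ => hpt y).trans ?_
    rw [Finset.sum_add_distrib, ← Finset.mul_sum, hπ1, ← Finset.mul_sum]
    have hm0 : (0 : ℝ) ≤ m := by positivity
    nlinarith
  have hsumD' : ((m : ℝ) - m / 5) * (1 / 2) ≤ ∑ b, D b := by
    have hpt : ∀ b, (1 / 2 : ℝ) - 1 / 2 * (if h b y₀ = 0 then 1 else 0) ≤ D b := by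
      intro b
      by_cases hb : h b y₀ = 0
      · rw [if_pos hb]; have := hD0 b; linarith
      · rw [if_neg hb]; have := hDge b hb; linarith
    have := Finset.sum_le_sum fun b (_ : b ∈ (univ : Finset (Fin m))) => hpt b
    rw [Finset.sum_sub_distrib, ← Finset.mul_sum, Finset.sum_boole] at this
    simp only [Finset.sum_const, Finset.card_univ, Fintype.card_fin, nsmul_eq_mul] at this
    have h' : (5 : ℝ) * ((univ.filter fun b => h b y₀ = 0).card : ℝ) ≤ m := by exact_mod_cast h2.le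
    have e : (univ.filter fun b => h b y₀ = 0) = Finset.filter (fun x => h x y₀ = 0) univ := rfl
    linarith
  have hm0 : (0 : ℝ) < m := by exact_mod_cast hm
  nlinarith

theorem core {U W : Type} [Fintype U] [Fintype W] (σ : U → U) (τ : W → W) (hσ : ∀ u, σ (σ u) = u)
    (R : U → W → Prop) (hR : ∀ u w, R (σ u) (τ w) ↔ R u w) (hne : ∀ u w, R u w → R (σ u) w → False)
    (ℓ B : ℕ) (hℓ1 : 1 ≤ ℓ) (hℓ : 2 * (Fintype.card U : ℝ) ≤ Real.exp ((ℓ : ℝ) / 2))
    (hB : Fintype.card W ≤ 2 ^ B) (hU : 0 < Fintype.card U) :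
    ∃ h : (Fin (2 ^ 35 * ℓ * ℓ) → W) → Fin (2 * (2 ^ 35 * ℓ * ℓ) * B + 2) → ℝ,
      (∀ y b, h (fun j => τ (y j)) b = - h y b) ∧
      ∀ μ : W → ℝ, (∀ w, 0 ≤ μ w) → ∑ w, μ w = 1 → (∃ u, ∀ w, μ w ≠ 0 → R u w) →
        ∃ b, ∑ y : Fin (2 ^ 35 * ℓ * ℓ) → W, (∏ j, μ (y j)) * h y b ≠ 0 := by
  classical
  set K : ℕ := 2 ^ 35 * ℓ with hKdef
  set k : ℕ := K * ℓ with hkdef
  set m : ℕ := 2 * k * B + 2 with hmdef
  set q : ℝ := 1 - 1 / (K : ℝ) with hq
  have hK2 : 2 ≤ K := by
    have : 2 ^ 35 * 1 ≤ 2 ^ 35 * ℓ := Nat.mul_le_mul_left _ hℓ1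
    have h' : 2 ≤ 2 ^ 35 * 1 := by norm_num
    omega
  have hKr : (2 : ℝ) ≤ K := by exact_mod_cast hK2
  have hKpos : (0 : ℝ) < K := by linarith
  have hinv : 1 / (K : ℝ) ≤ 1 / 2 := by
    apply one_div_le_one_div_of_le <;> linarith
  have hinv0 : 0 < 1 / (K : ℝ) := by positivity
  have hqpos : 0 < q := by rw [hq]; linarith
  have hq1 : q ≤ 1 := by rw [hq]; linarith
  have hN : (0 : ℝ) < Fintype.card U := by exact_mod_cast hU
  have hqk : 2 * (Fintype.card U : ℝ) * q ^ ((k : ℝ) / 2) ≤ 1 := by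
    have h1 : q ≤ Real.exp (-(1 / (K : ℝ))) := by
      have := Real.add_one_le_exp (-(1 / (K : ℝ))); rw [hq]; linarith
    have h2 : q ^ ((k : ℝ) / 2) ≤ Real.exp (-((ℓ : ℝ) / 2)) := by
      calc q ^ ((k : ℝ) / 2) ≤ (Real.exp (-(1 / (K : ℝ)))) ^ ((k : ℝ) / 2) :=
            Real.rpow_le_rpow hqpos.le h1 (by positivity)
        _ = Real.exp (-((ℓ : ℝ) / 2)) := by
            rw [← Real.exp_mul]
            congr 1
            rw [hkdef]; push_cast; field_simp
    have h3 : Real.exp ((ℓ : ℝ) / 2) * Real.exp (-((ℓ : ℝ) / 2)) = 1 := by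
      rw [← Real.exp_add]; simp
    have h4 : 0 ≤ q ^ ((k : ℝ) / 2) := by positivity
    calc 2 * (Fintype.card U : ℝ) * q ^ ((k : ℝ) / 2) ≤ Real.exp ((ℓ : ℝ) / 2) * Real.exp (-((ℓ : ℝ) / 2)) := by
          gcongr
      _ = 1 := h3
  -- the trial space
  set p₁ : U × Fin (k + 1) → ℝ := fun a => (1 / Fintype.card U : ℝ) * wt k q a.2 with hp₁
  have hp₁0 : ∀ a, 0 ≤ p₁ a := fun a => mul_nonneg (by positivity) (wt_nonneg hqpos.le hq1 _)
  have hp₁1 : ∑ a, p₁ a = 1 := by
    rw [Fintype.sum_prod_type]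
    simp only [hp₁]
    simp_rw [← Finset.mul_sum, sum_wt_one]
    simp only [mul_one, Finset.sum_const, Finset.card_univ, nsmul_eq_mul]
    field_simp
  -- number of trials
  obtain ⟨J, hJ⟩ : ∃ J : ℕ, (1 - 1 / (Fintype.card U : ℝ)) ^ J ≤ 1 / 1024 := by
    have h1 : 1 ≤ (Fintype.card U : ℝ) := by exact_mod_cast hU
    have h0 : 0 ≤ 1 - 1 / (Fintype.card U : ℝ) := by
      rw [sub_nonneg, div_le_one hN]; exact h1
    have h2 : 1 - 1 / (Fintype.card U : ℝ) < 1 := by
      have : 0 < 1 / (Fintype.card U : ℝ) := by positivity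
      linarith
    obtain ⟨J, hJ⟩ := exists_pow_lt_of_lt_one (by norm_num : (0 : ℝ) < 1 / 1024) h2
    exact ⟨J, hJ.le⟩
  obtain ⟨Ω, hΩ, p, h, hp0, hp1, hval, hodd, hdis, hzero⟩ :=
    firstAccept p₁ hp₁0 hp₁1 (fun (y : Fin k → W) j => τ (y j)) (tr R σ) (tr_vals R σ)
      (fun a y => tr_odd R σ τ hσ hR a y) J
  -- selection
  let I := ((Fin k → W) × (Fin k → W)) ⊕ (Fin k → W)
  let S : I → Ω → Prop := fun i a => match i with
    | Sum.inl (y, y') => h a y ≠ h a y' ∧ (∑ a, if h a y ≠ h a y' then p a else 0) ≤ 1 / 1024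
    | Sum.inr y => h a y = 0 ∧ (∑ a, if h a y = 0 then p a else 0) ≤ 1 / 1024
  have hS : ∀ i, ∑ a, (if S i a then p a else 0) ≤ 1 / 1024 := by
    intro i
    rcases i with ⟨y, y'⟩ | y
    · by_cases hc : (∑ a, if h a y ≠ h a y' then p a else 0) ≤ 1 / 1024
      · refine le_trans (le_of_eq ?_) hc
        refine Finset.sum_congr rfl fun a _ => ?_
        simp only [S, hc, and_true]
      · have : ∀ a, ¬ S (Sum.inl (y, y')) a := fun a hs => hc hs.2
        simp only [this, if_false, Finset.sum_const_zero]; norm_num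
    · by_cases hc : (∑ a, if h a y = 0 then p a else 0) ≤ 1 / 1024
      · refine le_trans (le_of_eq ?_) hc
        refine Finset.sum_congr rfl fun a _ => ?_
        simp only [S, hc, and_true]
      · have : ∀ a, ¬ S (Sum.inr y) a := fun a hs => hc hs.2
        simp only [this, if_false, Finset.sum_const_zero]; norm_num
  have hcard : Fintype.card I < 2 ^ m := by
    simp only [I, Fintype.card_sum, Fintype.card_prod, Fintype.card_fun, Fintype.card_fin]
    have h1 : Fintype.card W ^ k ≤ 2 ^ (k * B) := by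
      calc Fintype.card W ^ k ≤ (2 ^ B) ^ k := Nat.pow_le_pow_left hB k
        _ = 2 ^ (k * B) := by rw [← pow_mul, mul_comm]
    have h2 : Fintype.card W ^ k * Fintype.card W ^ k ≤ 2 ^ (k * B) * 2 ^ (k * B) := Nat.mul_le_mul h1 h1
    have h3 : 2 ^ m = 4 * (2 ^ (k * B) * 2 ^ (k * B)) := by
      rw [hmdef, ← pow_add, pow_add]; ring
    have h4 : 1 ≤ 2 ^ (k * B) := Nat.one_le_two_pow
    nlinarith
  obtain ⟨ω, hω⟩ := selection p hp0 hp1 S hS m hcard
  refine ⟨fun y b => h (ω b) y, fun y b => hodd _ _, ?_⟩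
  intro μ hμ0 hμ1 ⟨u₀, hu₀⟩
  -- means
  set ε : ℝ := 1 / 2 ^ 17 with hε
  set A : U → ℝ := fun u => av R μ q u ^ k with hA
  set Z : ℝ := ∑ u, A u with hZ
  have hav0 : ∀ u, 0 ≤ av R μ q u := by
    intro u; unfold av
    refine Finset.sum_nonneg fun w _ => mul_nonneg (hμ0 w) ?_
    split_ifs
    · norm_num
    · exact hqpos.le
  have hA0 : ∀ u, 0 ≤ A u := fun u => pow_nonneg (hav0 u) _
  have hAu₀ : A u₀ = 1 := by
    have : av R μ q u₀ = 1 := by
      rw [av_eq R μ hμ1]
      have : ∑ w, (if R u₀ w then 0 else μ w) = 0 := by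
        refine Finset.sum_eq_zero fun w _ => ?_
        by_cases hw : μ w = 0
        · simp [hw]
        · rw [if_pos (hu₀ w hw)]
      rw [this]; ring
    simp only [hA, this, one_pow]
  have hZ1 : 1 ≤ Z := by
    rw [← hAu₀]; exact Finset.single_le_sum (fun u _ => hA0 u) (Finset.mem_univ _)
  set π : (Fin k → W) → ℝ := fun y => ∏ j, μ (y j) with hπ
  have hπ0 : ∀ y, 0 ≤ π y := fun y => Finset.prod_nonneg fun j _ => hμ0 _
  have hπ1 : ∑ y, π y = 1 := sum_prob μ hμ1
  have hmean : ∀ u, ∑ y, π y * |q ^ miss R u y - A u| ≤ ε * A u := by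
    intro u
    have := mean_abs R μ hμ0 hμ1 u K k hK2 ε (by positivity) (by rw [hε]; norm_num) ?_
    · exact this
    · rw [hε, hkdef, hKdef]
      push_cast
      have : (0 : ℝ) ≤ (ℓ : ℝ) := by positivity
      apply le_of_eq
      ring
  set T : (Fin k → W) → ℝ := fun y => ∑ u, |q ^ miss R u y - A u| with hT
  have hT0 : ∀ y, 0 ≤ T y := fun y => Finset.sum_nonneg fun u _ => abs_nonneg _
  have hTmean : ∑ y, π y * T y ≤ ε * Z := by
    simp only [hT, Finset.mul_sum]
    rw [Finset.sum_comm, hZ, Finset.mul_sum]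
    exact Finset.sum_le_sum fun u _ => hmean u
  let G : (Fin k → W) → Prop := fun y => π y ≠ 0 ∧ T y ≤ 10 * ε * Z
  have hεpos : 0 < ε := by positivity
  have hGm : ∑ y, (if G y then 0 else π y) ≤ 1 / 10 := by
    have hpt : ∀ y, (if G y then 0 else π y) * (10 * ε * Z) ≤ π y * T y := by
      intro y
      by_cases hg : G y
      · rw [if_pos hg, zero_mul]; exact mul_nonneg (hπ0 y) (hT0 y)
      · rw [if_neg hg]
        by_cases hz : π y = 0
        · simp [hz]
        · have : ¬ T y ≤ 10 * ε * Z := fun h' => hg ⟨hz, h'⟩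
          exact mul_le_mul_of_nonneg_left (not_le.1 this).le (hπ0 y)
    have h1 := Finset.sum_le_sum fun y (_ : y ∈ univ) => hpt y
    rw [← Finset.sum_mul] at h1
    have h2 : 0 < ε * Z := by positivity
    have h3 : (∑ y, if G y then 0 else π y) * 10 * (ε * Z) ≤ 1 * (ε * Z) := by
      calc _ = (∑ y, if G y then 0 else π y) * (10 * ε * Z) := by ring
        _ ≤ ε * Z := h1.trans hTmean
        _ = 1 * (ε * Z) := by ring
    have h4 := le_of_mul_le_mul_right h3 h2
    linarith
  obtain ⟨y₀, hy₀⟩ : ∃ y₀, G y₀ := by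
    by_contra hno
    push Not at hno
    have : ∑ y, (if G y then 0 else π y) = 1 := by
      rw [← hπ1]; exact Finset.sum_congr rfl fun y _ => if_neg (hno y)
    linarith
  have hmiss : ∀ y, π y ≠ 0 → 1 ≤ ∑ u, q ^ miss R u y := by
    intro y hy
    have h0 : miss R u₀ y = 0 := by
      unfold miss
      rw [Finset.card_eq_zero, Finset.filter_eq_empty_iff]
      intro j _
      simp only [not_not]
      refine hu₀ _ fun hz => hy ?_
      exact Finset.prod_eq_zero (Finset.mem_univ j) hz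
    calc (1 : ℝ) = q ^ miss R u₀ y := by rw [h0, pow_zero]
      _ ≤ ∑ u, q ^ miss R u y :=
        Finset.single_le_sum (f := fun u => q ^ miss R u y) (fun u _ => pow_nonneg hqpos.le _) (Finset.mem_univ _)
  have hacc : ∀ y, π y ≠ 0 → (1 / Fintype.card U : ℝ) * ∑ u, q ^ miss R u y
      ≤ ∑ a, (if tr R σ a y ≠ 0 then p₁ a else 0) := by
    intro y hy
    have e := tr_ne_zero R σ hqpos.le hq1 y
    have : (∑ a, (if tr R σ a y ≠ 0 then p₁ a else 0)) = (1 / Fintype.card U : ℝ) * ∑ u, |q ^ miss R u y - q ^ miss R (σ u) y| := e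
    rw [this]
    have := accept_ge R σ hσ hne hqpos.le hq1 y hqk hqpos (hmiss y hy)
    gcongr
  have hsmall0 : ∀ y, π y ≠ 0 → (∑ a, if h a y = 0 then p a else 0) ≤ 1 / 1024 := by
    intro y hy
    rw [hzero y]
    have h1 : (∑ a, if tr R σ a y = 0 then p₁ a else 0) = 1 - ∑ a, (if tr R σ a y ≠ 0 then p₁ a else 0) := by
      rw [eq_sub_iff_add_eq, ← Finset.sum_add_distrib, ← hp₁1]
      refine Finset.sum_congr rfl fun a _ => ?_
      by_cases hc : tr R σ a y = 0 <;> simp [hc]
    have h2 := hacc y hy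
    have h3 := hmiss y hy
    have h4 : (1 / Fintype.card U : ℝ) * 1 ≤ (1 / Fintype.card U : ℝ) * ∑ u, q ^ miss R u y := by gcongr
    have h5 : 0 ≤ (∑ a, if tr R σ a y = 0 then p₁ a else 0) :=
      Finset.sum_nonneg fun a _ => by
        have := hp₁0 a
        split_ifs <;> simp [this]
    refine le_trans (pow_le_pow_left₀ h5 ?_ J) hJ
    rw [h1]; linarith
  have hsmall1 : ∀ y y', G y → G y' → (∑ a, if h a y ≠ h a y' then p a else 0) ≤ 1 / 1024 := by
    intro y y' hy hy'
    have h1 := hdis y y'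
    have h2 := hacc y hy.1
    have h3 := tr_diff R σ hσ hqpos.le hq1 y y'
    have h3' : (∑ a, (if tr R σ a y ≠ tr R σ a y' then p₁ a else 0)) ≤ (1 / Fintype.card U : ℝ) * (2 * ∑ u, |q ^ miss R u y - q ^ miss R u y'|) := h3
    set P : ℝ := ∑ a, (if h a y ≠ h a y' then p a else 0) with hP
    have hP0 : 0 ≤ P := Finset.sum_nonneg fun a _ => by
      have := hp0 a
      split_ifs <;> simp [this]
    have h4 : ∑ u, |q ^ miss R u y - q ^ miss R u y'| ≤ T y + T y' := by
      simp only [hT]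
      rw [← Finset.sum_add_distrib]
      refine Finset.sum_le_sum fun u _ => ?_
      have := abs_sub_le (q ^ miss R u y) (A u) (q ^ miss R u y')
      rw [abs_sub_comm (A u)] at this
      exact this
    have h5 : Z - T y ≤ ∑ u, q ^ miss R u y := by
      have : ∀ u, A u - |q ^ miss R u y - A u| ≤ q ^ miss R u y := by
        intro u; have := neg_abs_le (q ^ miss R u y - A u); linarith
      have h' := Finset.sum_le_sum fun u (_ : u ∈ univ) => this u
      rw [Finset.sum_sub_distrib] at h'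
      exact h'
    have h6 : P * ((1 / Fintype.card U : ℝ) * ∑ u, q ^ miss R u y) ≤ (1 / Fintype.card U : ℝ) * (2 * (T y + T y')) := by
      calc P * ((1 / Fintype.card U : ℝ) * ∑ u, q ^ miss R u y) ≤ P * ∑ a, (if tr R σ a y ≠ 0 then p₁ a else 0) := by gcongr
        _ ≤ _ := h1
        _ ≤ _ := h3'
        _ ≤ _ := by gcongr
    have h7 : P * ∑ u, q ^ miss R u y ≤ 2 * (T y + T y') := by
      have hNinv : 0 < (1 / Fintype.card U : ℝ) := by positivity
      have : (1 / Fintype.card U : ℝ) * (P * ∑ u, q ^ miss R u y) ≤ (1 / Fintype.card U : ℝ) * (2 * (T y + T y')) := by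
        calc _ = P * ((1 / Fintype.card U : ℝ) * ∑ u, q ^ miss R u y) := by ring
          _ ≤ _ := h6
      exact le_of_mul_le_mul_left this hNinv
    have hε2 : ε = 1 / 131072 := by rw [hε]; norm_num
    have hTy : T y ≤ (10 / 131072) * Z := by
      have h := hy.2
      have e : 10 * ε * Z = (10 / 131072) * Z := by rw [hε2]; ring
      exact h.trans (le_of_eq e)
    have hTy' : T y' ≤ (10 / 131072) * Z := by
      have h := hy'.2
      have e : 10 * ε * Z = (10 / 131072) * Z := by rw [hε2]; ring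
      exact h.trans (le_of_eq e)
    have hZpos : 0 < Z := by linarith
    have h8 : Z / 2 ≤ ∑ u, q ^ miss R u y := by
      refine le_trans ?_ h5
      clear_value Z T
      linarith
    have h9 : P * (Z / 2) ≤ 2 * (T y + T y') := le_trans (by gcongr) h7
    have h11 : P ≤ 80 / 131072 := by
      have : P * (Z / 2) ≤ (80 / 131072) * (Z / 2) := by
        clear_value Z T P
        linarith
      exact le_of_mul_le_mul_right this (by positivity)
    clear_value P
    linarith
  have hmpos : 0 < m := by rw [hmdef]; omega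
  refine nonvanish π hπ0 hπ1 m hmpos (fun b y => h (ω b) y) (fun b y => hval _ _) G y₀ hGm ?_ ?_
  · intro y hy
    have := hω (Sum.inl (y, y₀))
    refine lt_of_le_of_lt (Nat.mul_le_mul_left 5 (Finset.card_le_card ?_)) this
    intro b hb
    have hb' : h (ω b) y ≠ h (ω b) y₀ := by simpa using hb
    have hSb : S (Sum.inl (y, y₀)) (ω b) := ⟨hb', hsmall1 y y₀ hy hy₀⟩
    simpa using hSb
  · have := hω (Sum.inr y₀)
    refine lt_of_le_of_lt (Nat.mul_le_mul_left 5 (Finset.card_le_card ?_)) this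
    intro b hb
    have hb' : h (ω b) y₀ = 0 := by simpa using hb
    have hSb : S (Sum.inr y₀) (ω b) := ⟨hb', hsmall0 y₀ hy₀.1⟩
    simpa using hSb

end Pool.Agent.H317I
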