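import Pool.Agent.H317I.Trial2
import Pool.Agent.H317I.Core

set_option autoImplicit false
open Finset

namespace Pool.Agent.H317I

open Classical in
theorem sum_hit {U W : Type} [Fintype U] [Fintype W] (R : U → W → Prop) (μ : W → ℝ) (h0 : ∀ w, 0 ≤ μ w)
    (h1 : ∑ w, μ w = 1) (s : ℕ) (hs : ∀ w, (univ.filter fun u => R u w).card ≤ s) :
    ∑ u, hit R μ u ≤ s := by
  unfold hit
  rw [Finset.sum_comm]
  have : ∀ w, ∑ u, (if R u w then μ w else 0) ≤ μ w * s := by
    intro w
    rw [← Finset.sum_filter, Finset.sum_const, nsmul_eq_mul, mul_comm]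
    have hw : ((univ.filter fun u => R u w).card : ℝ) ≤ s := by exact_mod_cast hs w
    exact mul_le_mul_of_nonneg_left hw (h0 w)
  refine (Finset.sum_le_sum fun w _ => this w).trans ?_
  rw [← Finset.sum_mul, h1, one_mul]

open Classical in
theorem core3 {U W : Type} [Fintype U] [Fintype W] (σ : U → U) (τ : W → W) (hσ : ∀ u, σ (σ u) = u)
    (R : U → W → Prop) (hR : ∀ u w, R (σ u) (τ w) ↔ R u w) (hne : ∀ u w, R u w → R (σ u) w → False)
    (s t ℓ B B₁ : ℕ) (hs : ∀ w, (univ.filter fun u => R u w).card ≤ s) (hs1 : 1 ≤ s)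
    (ht : ∀ u, Fintype.card {w // R u w} ≤ t)
    (hℓ1 : 1 ≤ ℓ) (hℓ : 64 * (s : ℝ) ≤ Real.exp ((ℓ : ℝ) / 2))
    (hB : t ≤ 2 ^ B) (hB₁ : Fintype.card U ≤ 2 ^ B₁) (hU : 0 < Fintype.card U) :
    ∃ h : (Fin (2 * (2 ^ 34 * ℓ * ℓ)) → W) → Fin (B₁ + 2 * (2 * (2 ^ 34 * ℓ * ℓ)) * B + 2) → ℝ,
      (∀ y b, h (fun j => τ (y j)) b = - h y b) ∧
      ∀ μ : W → ℝ, (∀ w, 0 ≤ μ w) → ∑ w, μ w = 1 → (∃ u, ∀ w, μ w ≠ 0 → R u w) →
        ∃ b, ∑ y : Fin (2 * (2 ^ 34 * ℓ * ℓ)) → W, (∏ j, μ (y j)) * h y b ≠ 0 := by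
  set K : ℕ := 2 ^ 35 * ℓ with hKdef
  set hh : ℕ := 2 ^ 34 * ℓ * ℓ with hhdef
  set k : ℕ := 2 * hh with hkdef
  set m : ℕ := B₁ + 2 * k * B + 2 with hmdef
  set q : ℝ := 1 - 1 / (K : ℝ) with hq
  have hK2 : 2 ≤ K := by
    have : 2 ^ 35 * 1 ≤ 2 ^ 35 * ℓ := Nat.mul_le_mul_left _ hℓ1
    have h' : 2 ≤ 2 ^ 35 * 1 := by norm_num
    omega
  have hKr : (2 : ℝ) ≤ K := by exact_mod_cast hK2
  have hKpos : (0 : ℝ) < K := by linarith
  have hinv : 1 / (K : ℝ) ≤ 1 / 2 := by
    apply one_div_le_one_div_of_le <;> linarith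
  have hinv0 : 0 < 1 / (K : ℝ) := by positivity
  have hqpos : 0 < q := by rw [hq]; linarith
  have hq1 : q ≤ 1 := by rw [hq]; linarith
  have hN : (0 : ℝ) < Fintype.card U := by exact_mod_cast hU
  have hs1r : (1 : ℝ) ≤ s := by exact_mod_cast hs1
  have hqh : 64 * (s : ℝ) * q ^ hh ≤ 1 := by
    have h1 : q ≤ Real.exp (-(1 / (K : ℝ))) := by
      have := Real.add_one_le_exp (-(1 / (K : ℝ))); rw [hq]; linarith
    have h2 : q ^ hh ≤ Real.exp (-((ℓ : ℝ) / 2)) := by
      calc q ^ hh ≤ (Real.exp (-(1 / (K : ℝ)))) ^ hh := pow_le_pow_left₀ hqpos.le h1 _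
        _ = Real.exp (-((ℓ : ℝ) / 2)) := by
            rw [← Real.exp_nat_mul]
            congr 1
            have hℓr : (0 : ℝ) < ℓ := by exact_mod_cast hℓ1
            rw [hhdef, hKdef]; push_cast; field_simp; norm_num
    have h3 : Real.exp ((ℓ : ℝ) / 2) * Real.exp (-((ℓ : ℝ) / 2)) = 1 := by
      rw [← Real.exp_add]; simp
    have h4 : 0 ≤ q ^ hh := by positivity
    calc 64 * (s : ℝ) * q ^ hh ≤ Real.exp ((ℓ : ℝ) / 2) * Real.exp (-((ℓ : ℝ) / 2)) := by
          gcongr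
      _ = 1 := h3
  have hqh' : q ^ hh ≤ 1 / 64 := by
    have h4 : 0 ≤ q ^ hh := by positivity
    nlinarith
  have hqh0 : 0 ≤ q ^ hh := by positivity
  have hs2 : (s : ℝ) * (1 / 2) ^ hh ≤ 1 / 2 ^ 18 := by
    have h1 : Real.exp ((ℓ : ℝ) / 2) ≤ 2 ^ ℓ := by
      have e1 : Real.exp (1 / 2) ≤ 2 := by
        have h2 : Real.exp (1 / 2) * Real.exp (1 / 2) = Real.exp 1 := by rw [← Real.exp_add]; norm_num
        have h3 := Real.exp_one_lt_d9
        have h4 := Real.exp_pos (1 / 2)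
        nlinarith
      calc Real.exp ((ℓ : ℝ) / 2) = (Real.exp (1 / 2)) ^ ℓ := by
            rw [← Real.exp_nat_mul]; congr 1; ring
        _ ≤ 2 ^ ℓ := pow_le_pow_left₀ (Real.exp_pos _).le e1 _
    have h2 : (s : ℝ) ≤ 2 ^ ℓ := by linarith
    have h3 : ℓ + 18 ≤ hh := by
      have : 2 ^ 34 * ℓ * 1 ≤ 2 ^ 34 * ℓ * ℓ := Nat.mul_le_mul_left _ hℓ1
      omega
    obtain ⟨d, hd⟩ := Nat.exists_eq_add_of_le h3
    have h4 : ((1 : ℝ) / 2) ^ hh ≤ (1 / 2) ^ (ℓ + 18) := pow_le_pow_of_le_one (by norm_num) (by norm_num) h3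
    calc (s : ℝ) * (1 / 2) ^ hh ≤ 2 ^ ℓ * (1 / 2) ^ (ℓ + 18) := by gcongr
      _ = 1 / 2 ^ 18 := by
        rw [pow_add, ← mul_assoc, ← mul_pow]; norm_num
  -- the trial space
  let Y := Fin k → W
  let mm : U → Y → ℕ := fun u y => min (miss R u y) hh
  have hmm : ∀ u y, mm u y ≤ hh := fun u y => min_le_right _ _
  have hor : ∀ u y, mm u y = hh ∨ mm (σ u) y = hh := by
    intro u y
    have := miss_add R σ hne u y
    simp only [mm]
    by_cases hc : hh ≤ miss R u y
    · exact Or.inl (min_eq_right hc)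
    · exact Or.inr (min_eq_right (by omega))
  set p₁ : U × Fin (hh + 1) → ℝ := fun a => (1 / Fintype.card U : ℝ) * wt hh q a.2 with hp₁
  have hp₁0 : ∀ a, 0 ≤ p₁ a := fun a => mul_nonneg (by positivity) (wt_nonneg hqpos.le hq1 _)
  have hp₁1 : ∑ a, p₁ a = 1 := by
    rw [Fintype.sum_prod_type]
    simp only [hp₁]
    simp_rw [← Finset.mul_sum, sum_wt_one]
    simp only [mul_one, Finset.sum_const, Finset.card_univ, nsmul_eq_mul]
    field_simp
  -- number of trials
  obtain ⟨J, hJ⟩ : ∃ J : ℕ, (1 - 1 / (Fintype.card U : ℝ)) ^ J ≤ 1 / 1024 := by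
    have h1 : 1 ≤ (Fintype.card U : ℝ) := by exact_mod_cast hU
    have h0 : 0 ≤ 1 - 1 / (Fintype.card U : ℝ) := by
      rw [sub_nonneg, div_le_one hN]; exact h1
    have h2 : 1 - 1 / (Fintype.card U : ℝ) < 1 := by
      have : 0 < 1 / (Fintype.card U : ℝ) := by positivity
      linarith
    obtain ⟨J, hJ⟩ := exists_pow_lt_of_lt_one (by norm_num : (0 : ℝ) < 1 / 1024) h2
    exact ⟨J, hJ.le⟩
  obtain ⟨Ω, hΩ, p, h, hp0, hp1, hval, hodd, hdis, hzero⟩ :=
    firstAccept p₁ hp₁0 hp₁1 (fun (y : Fin k → W) j => τ (y j)) (tr2 hh mm σ) (tr2_vals hh mm σ)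
      (fun a y => tr2_odd hh mm σ (fun (y : Fin k → W) j => τ (y j)) hσ
        (fun u y => by simp only [mm]; rw [miss_equiv R σ τ hσ hR]) a y) J
  -- selection
  let V : U → Type := fun u => Fin k → {w // R u w}
  let I := (u : U) × ((V u × V u) ⊕ V u)
  let S : I → Ω → Prop := fun i a => match i with
    | ⟨_, Sum.inl (y, y')⟩ => h a (fun j => (y j).1) ≠ h a (fun j => (y' j).1) ∧
        (∑ a, if h a (fun j => (y j).1) ≠ h a (fun j => (y' j).1) then p a else 0) ≤ 1 / 1024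
    | ⟨_, Sum.inr y⟩ => h a (fun j => (y j).1) = 0 ∧
        (∑ a, if h a (fun j => (y j).1) = 0 then p a else 0) ≤ 1 / 1024
  have hS : ∀ i, ∑ a, (if S i a then p a else 0) ≤ 1 / 1024 := by
    intro i
    rcases i with ⟨u, ⟨y, y'⟩ | y⟩
    · by_cases hc : (∑ a, if h a (fun j => (y j).1) ≠ h a (fun j => (y' j).1) then p a else 0) ≤ 1 / 1024
      · refine le_trans (le_of_eq ?_) hc
        refine Finset.sum_congr rfl fun a _ => ?_
        simp only [S, hc, and_true]
      · have : ∀ a, ¬ S ⟨u, Sum.inl (y, y')⟩ a := fun a hs => hc hs.2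
        simp only [this, if_false, Finset.sum_const_zero]; norm_num
    · by_cases hc : (∑ a, if h a (fun j => (y j).1) = 0 then p a else 0) ≤ 1 / 1024
      · refine le_trans (le_of_eq ?_) hc
        refine Finset.sum_congr rfl fun a _ => ?_
        simp only [S, hc, and_true]
      · have : ∀ a, ¬ S ⟨u, Sum.inr y⟩ a := fun a hs => hc hs.2
        simp only [this, if_false, Finset.sum_const_zero]; norm_num
  have hcard : Fintype.card I < 2 ^ m := by
    have hV : ∀ u, Fintype.card (V u) ≤ 2 ^ (k * B) := by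
      intro u
      simp only [V, Fintype.card_fun, Fintype.card_fin]
      calc Fintype.card {w // R u w} ^ k ≤ (2 ^ B) ^ k := Nat.pow_le_pow_left ((ht u).trans hB) k
        _ = 2 ^ (k * B) := by rw [← pow_mul, mul_comm]
    have h1 : Fintype.card I ≤ Fintype.card U * (2 ^ (k * B) * 2 ^ (k * B) + 2 ^ (k * B)) := by
      simp only [I, Fintype.card_sigma, Fintype.card_sum, Fintype.card_prod]
      refine (Finset.sum_le_sum fun u _ => Nat.add_le_add (Nat.mul_le_mul (hV u) (hV u)) (hV u)).trans ?_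
      rw [Finset.sum_const, Finset.card_univ, smul_eq_mul]
    have h2 : 2 ^ (k * B) * 2 ^ (k * B) + 2 ^ (k * B) ≤ 2 * (2 ^ (k * B) * 2 ^ (k * B)) := by
      have h4 : 1 ≤ 2 ^ (k * B) := Nat.one_le_two_pow
      nlinarith
    have h3 : 2 ^ m = 4 * (2 ^ B₁ * (2 ^ (k * B) * 2 ^ (k * B))) := by
      rw [hmdef, ← pow_add, ← pow_add, pow_add]
      have : B₁ + 2 * k * B = B₁ + (k * B + k * B) := by ring
      rw [this]; ring
    have h5 : Fintype.card I ≤ 2 ^ B₁ * (2 * (2 ^ (k * B) * 2 ^ (k * B))) :=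
      h1.trans (Nat.mul_le_mul hB₁ h2)
    have h6 : 0 < 2 ^ B₁ * (2 ^ (k * B) * 2 ^ (k * B)) := by positivity
    rw [h3]
    refine lt_of_le_of_lt h5 ?_
    have h7 : 2 ^ B₁ * (2 * (2 ^ (k * B) * 2 ^ (k * B))) = 2 * (2 ^ B₁ * (2 ^ (k * B) * 2 ^ (k * B))) := by ring
    rw [h7]
    omega
  obtain ⟨ω, hω⟩ := selection p hp0 hp1 S hS m hcard
  refine ⟨fun y b => h (ω b) y, fun y b => hodd _ _, ?_⟩
  intro μ hμ0 hμ1 ⟨u₀, hu₀⟩
  -- means
  set ε : ℝ := 1 / 2 ^ 17 with hε
  have hεpos : 0 < ε := by positivity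
  have hε2 : ε = 1 / 131072 := by rw [hε]; norm_num
  have hhit0 : ∀ u, 0 ≤ hit R μ u := fun u => Finset.sum_nonneg fun w _ => by
    have := hμ0 w
    split_ifs <;> simp [this]
  have hsumhit : ∑ u, hit R μ u ≤ s := sum_hit R μ hμ0 hμ1 s hs
  set A : U → ℝ := fun u => av R μ q u ^ k with hA
  have hav0 : ∀ u, 0 ≤ av R μ q u := by
    intro u; unfold av
    refine Finset.sum_nonneg fun w _ => mul_nonneg (hμ0 w) ?_
    split_ifs
    · norm_num
    · exact hqpos.le
  have hA0 : ∀ u, 0 ≤ A u := fun u => pow_nonneg (hav0 u) _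
  -- the vertices that matter
  set A' : U → ℝ := fun u => if 1 / 8 ≤ hit R μ u then A u else 0 with hA'
  have hA'0 : ∀ u, 0 ≤ A' u := fun u => by
    simp only [hA']; split_ifs
    · exact hA0 u
    · exact le_rfl
  set cc : U → ℝ := fun u => if 1 / 8 ≤ hit R μ u then max (A u - q ^ hh) 0 else 0 with hcc
  have hcc0 : ∀ u, 0 ≤ cc u := fun u => by
    simp only [hcc]; split_ifs
    · exact le_max_right _ _
    · exact le_rfl
  set Z : ℝ := ∑ u, cc u with hZ
  have hAu₀ : A u₀ = 1 := by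
    have : av R μ q u₀ = 1 := by
      rw [av_eq R μ hμ1]
      have : ∑ w, (if R u₀ w then 0 else μ w) = 0 := by
        refine Finset.sum_eq_zero fun w _ => ?_
        by_cases hw : μ w = 0
        · simp [hw]
        · rw [if_pos (hu₀ w hw)]
      rw [this]; ring
    simp only [hA, this, one_pow]
  have hhitu₀ : hit R μ u₀ = 1 := by
    unfold hit
    rw [← hμ1]
    refine Finset.sum_congr rfl fun w _ => ?_
    by_cases hw : μ w = 0
    · simp [hw]
    · rw [if_pos (hu₀ w hw)]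
  have hZ1 : 1 / 2 ≤ Z := by
    have h1 : cc u₀ ≤ Z := Finset.single_le_sum (fun u _ => hcc0 u) (Finset.mem_univ _)
    have h2 : 1 / 2 ≤ cc u₀ := by
      simp only [hcc]
      rw [if_pos (by rw [hhitu₀]; norm_num), hAu₀]
      exact le_trans (by linarith) (le_max_left _ _)
    linarith
  have hAZ : ∑ u, A' u ≤ 5 / 4 * Z := by
    have hpt : ∀ u, A' u ≤ cc u + 8 * hit R μ u * q ^ hh := by
      intro u
      simp only [hA', hcc]
      split_ifs with hc
      · have h1 := le_max_left (A u - q ^ hh) 0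
        have h2 : 1 * q ^ hh ≤ 8 * hit R μ u * q ^ hh := by
          apply mul_le_mul_of_nonneg_right _ hqh0
          linarith
        linarith
      · have := hhit0 u
        positivity
    have h1 := Finset.sum_le_sum fun u (_ : u ∈ univ) => hpt u
    rw [Finset.sum_add_distrib, ← Finset.sum_mul, ← Finset.mul_sum] at h1
    have h2 : 8 * (∑ u, hit R μ u) * q ^ hh ≤ 8 * s * q ^ hh := by gcongr
    have h3 : 8 * (s : ℝ) * q ^ hh ≤ 1 / 8 := by linarith
    have h4 : (∑ u, cc u) = Z := rfl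
    rw [h4] at h1
    linarith
  set π : (Fin k → W) → ℝ := fun y => ∏ j, μ (y j) with hπ
  have hπ0 : ∀ y, 0 ≤ π y := fun y => Finset.prod_nonneg fun j _ => hμ0 _
  have hπ1 : ∑ y, π y = 1 := sum_prob μ hμ1
  set om : U → (Fin k → W) → ℝ := fun u y => q ^ mm u y - q ^ hh with hom
  have hom0 : ∀ u y, 0 ≤ om u y := fun u y => sub_nonneg.2 (pow_le_pow_of_le_one hqpos.le hq1 (hmm u y))
  have hom_max : ∀ u y, om u y = max (q ^ miss R u y - q ^ hh) 0 := by
    intro u y
    simp only [hom, mm]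
    rcases le_total (miss R u y) hh with hc | hc
    · rw [min_eq_left hc, max_eq_left]
      exact sub_nonneg.2 (pow_le_pow_of_le_one hqpos.le hq1 hc)
    · rw [min_eq_right hc, sub_self, max_eq_right]
      exact sub_nonpos.2 (pow_le_pow_of_le_one hqpos.le hq1 hc)
  have hmean : ∀ u, ∑ y, π y * |om u y - cc u| ≤ ε * A' u + hit R μ u * (1 / 2) ^ hh := by
    intro u
    by_cases hc : 1 / 8 ≤ hit R μ u
    · have h1 := mean_abs R μ hμ0 hμ1 u K k hK2 ε (by positivity) (by rw [hε]; norm_num) (by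
        rw [hε, hkdef, hhdef, hKdef]
        push_cast
        apply le_of_eq
        ring)
      have h2 : ∀ y, π y * |om u y - cc u| ≤ π y * |q ^ miss R u y - A u| := by
        intro y
        refine mul_le_mul_of_nonneg_left ?_ (hπ0 y)
        have e1 : cc u = max (A u - q ^ hh) 0 := by simp only [hcc]; rw [if_pos hc]
        rw [e1, hom_max]
        have := abs_max_sub_max_le_abs (q ^ miss R u y - q ^ hh) (A u - q ^ hh) 0
        refine this.trans (le_of_eq ?_)
        congr 1; ring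
      have e2 : A' u = A u := by simp only [hA']; rw [if_pos hc]
      rw [e2]
      have h3 := (Finset.sum_le_sum fun y (_ : y ∈ univ) => h2 y).trans h1
      have h4 : 0 ≤ hit R μ u * (1 / 2) ^ hh := mul_nonneg (hhit0 u) (by positivity)
      linarith
    · have e1 : cc u = 0 := by simp only [hcc]; rw [if_neg hc]
      have e2 : A' u = 0 := by simp only [hA']; rw [if_neg hc]
      rw [e1, e2, mul_zero, zero_add]
      refine le_trans (Finset.sum_le_sum fun y _ => ?_) (tail R μ hμ0 hμ1 u hh (by linarith))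
      refine mul_le_mul_of_nonneg_left ?_ (hπ0 y)
      rw [sub_zero, abs_of_nonneg (hom0 u y)]
      split_ifs with hm
      · simp only [hom]
        have : q ^ mm u y ≤ 1 := pow_le_one₀ hqpos.le hq1
        linarith
      · rw [hom_max]
        rw [max_eq_right]
        exact sub_nonpos.2 (pow_le_pow_of_le_one hqpos.le hq1 (not_lt.1 hm))
  set T : (Fin k → W) → ℝ := fun y => ∑ u, |om u y - cc u| with hT
  have hT0 : ∀ y, 0 ≤ T y := fun y => Finset.sum_nonneg fun u _ => abs_nonneg _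
  have hTmean : ∑ y, π y * T y ≤ 3 * ε * Z := by
    have h1 : ∑ y, π y * T y ≤ ε * ∑ u, A' u + (∑ u, hit R μ u) * (1 / 2) ^ hh := by
      simp only [hT, Finset.mul_sum]
      rw [Finset.sum_comm, Finset.sum_mul, ← Finset.sum_add_distrib]
      exact Finset.sum_le_sum fun u _ => hmean u
    have h2 : (∑ u, hit R μ u) * (1 / 2) ^ hh ≤ 1 / 2 ^ 18 :=
      le_trans (mul_le_mul_of_nonneg_right hsumhit (by positivity)) hs2
    have h3 : ε * ∑ u, A' u ≤ ε * (5 / 4 * Z) := by gcongr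
    have h4 : (1 : ℝ) / 2 ^ 18 ≤ ε * Z := by
      rw [hε2]; norm_num; linarith
    have h5 : 3 * ε * Z = 3 * (ε * Z) := by ring
    have h6 : ε * (5 / 4 * Z) = 5 / 4 * (ε * Z) := by ring
    rw [h6] at h3
    rw [h5]
    have h7 : 0 < ε * Z := by positivity
    clear_value T Z ε
    linarith
  let G : (Fin k → W) → Prop := fun y => π y ≠ 0 ∧ T y ≤ 30 * ε * Z
  have hZpos : 0 < Z := by linarith
  have hGm : ∑ y, (if G y then 0 else π y) ≤ 1 / 10 := by
    have hpt : ∀ y, (if G y then 0 else π y) * (30 * ε * Z) ≤ π y * T y := by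
      intro y
      by_cases hg : G y
      · rw [if_pos hg, zero_mul]; exact mul_nonneg (hπ0 y) (hT0 y)
      · rw [if_neg hg]
        by_cases hz : π y = 0
        · simp [hz]
        · have : ¬ T y ≤ 30 * ε * Z := fun h' => hg ⟨hz, h'⟩
          exact mul_le_mul_of_nonneg_left (not_le.1 this).le (hπ0 y)
    have h1 := Finset.sum_le_sum fun y (_ : y ∈ univ) => hpt y
    rw [← Finset.sum_mul] at h1
    have h2 : 0 < ε * Z := by positivity
    have h3 : (∑ y, if G y then 0 else π y) * 10 * (3 * (ε * Z)) ≤ 1 * (3 * (ε * Z)) := by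
      calc _ = (∑ y, if G y then 0 else π y) * (30 * ε * Z) := by ring
        _ ≤ 3 * ε * Z := h1.trans hTmean
        _ = 1 * (3 * (ε * Z)) := by ring
    have h4 := le_of_mul_le_mul_right h3 (by positivity)
    linarith
  obtain ⟨y₀, hy₀⟩ : ∃ y₀, G y₀ := by
    by_contra hno
    push Not at hno
    have : ∑ y, (if G y then 0 else π y) = 1 := by
      rw [← hπ1]; exact Finset.sum_congr rfl fun y _ => if_neg (hno y)
    linarith
  have hmiss : ∀ y, π y ≠ 0 → 1 / 2 ≤ ∑ u, om u y := by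
    intro y hy
    have h0 : miss R u₀ y = 0 := by
      unfold miss
      rw [Finset.card_eq_zero, Finset.filter_eq_empty_iff]
      intro j _
      simp only [not_not]
      refine hu₀ _ fun hz => hy ?_
      exact Finset.prod_eq_zero (Finset.mem_univ j) hz
    have h1 : 1 / 2 ≤ om u₀ y := by
      rw [hom_max, h0, pow_zero]
      exact le_trans (by linarith) (le_max_left _ _)
    exact h1.trans (Finset.single_le_sum (f := fun u => om u y) (fun u _ => hom0 u y) (Finset.mem_univ _))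
  have hacc : ∀ y, (∑ a, (if tr2 hh mm σ a y ≠ 0 then p₁ a else 0))
      = (1 / Fintype.card U : ℝ) * (2 * ∑ u, om u y) := by
    intro y
    have e := tr2_ne_zero hh mm hmm σ hqpos.le hq1 y
    have e2 := accept_eq hh mm hmm σ hσ hqpos.le hq1 hor y
    rw [e2] at e
    exact e
  have hsmall0 : ∀ y, π y ≠ 0 → (∑ a, if h a y = 0 then p a else 0) ≤ 1 / 1024 := by
    intro y hy
    rw [hzero y]
    have h1 : (∑ a, if tr2 hh mm σ a y = 0 then p₁ a else 0) = 1 - ∑ a, (if tr2 hh mm σ a y ≠ 0 then p₁ a else 0) := by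
      rw [eq_sub_iff_add_eq, ← Finset.sum_add_distrib, ← hp₁1]
      refine Finset.sum_congr rfl fun a _ => ?_
      by_cases hc : tr2 hh mm σ a y = 0 <;> simp [hc]
    have h2 := hacc y
    have h3 := hmiss y hy
    have h4 : (1 / Fintype.card U : ℝ) * 1 ≤ (1 / Fintype.card U : ℝ) * (2 * ∑ u, om u y) := by
      gcongr; linarith
    have h5 : 0 ≤ (∑ a, if tr2 hh mm σ a y = 0 then p₁ a else 0) :=
      Finset.sum_nonneg fun a _ => by
        have := hp₁0 a
        split_ifs <;> simp [this]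
    refine le_trans (pow_le_pow_left₀ h5 ?_ J) hJ
    rw [h1, h2]; linarith
  have hsmall1 : ∀ y y', G y → G y' → (∑ a, if h a y ≠ h a y' then p a else 0) ≤ 1 / 1024 := by
    intro y y' hy hy'
    have h1 := hdis y y'
    have h2 := hacc y
    have h3 := tr2_diff hh mm hmm σ hσ hqpos.le hq1 y y'
    have h3' : (∑ a, (if tr2 hh mm σ a y ≠ tr2 hh mm σ a y' then p₁ a else 0)) ≤ (1 / Fintype.card U : ℝ) * (2 * ∑ u, |q ^ mm u y - q ^ mm u y'|) := h3
    set P : ℝ := ∑ a, (if h a y ≠ h a y' then p a else 0) with hP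
    have hP0 : 0 ≤ P := Finset.sum_nonneg fun a _ => by
      have := hp0 a
      split_ifs <;> simp [this]
    have h4 : ∑ u, |q ^ mm u y - q ^ mm u y'| ≤ T y + T y' := by
      simp only [hT]
      rw [← Finset.sum_add_distrib]
      refine Finset.sum_le_sum fun u _ => ?_
      have := abs_sub_le (om u y) (cc u) (om u y')
      rw [abs_sub_comm (cc u)] at this
      have e : om u y - om u y' = q ^ mm u y - q ^ mm u y' := by simp only [hom]; ring
      rw [e] at this
      exact this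
    have h5 : Z - T y ≤ ∑ u, om u y := by
      have : ∀ u, cc u - |om u y - cc u| ≤ om u y := by
        intro u; have := neg_abs_le (om u y - cc u); linarith
      have h' := Finset.sum_le_sum fun u (_ : u ∈ univ) => this u
      rw [Finset.sum_sub_distrib] at h'
      exact h'
    have h7 : P * ∑ u, om u y ≤ T y + T y' := by
      have hNinv : 0 < (1 / Fintype.card U : ℝ) * 2 := by positivity
      have : ((1 / Fintype.card U : ℝ) * 2) * (P * ∑ u, om u y) ≤ ((1 / Fintype.card U : ℝ) * 2) * (T y + T y') := by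
        calc _ = P * ((1 / Fintype.card U : ℝ) * (2 * ∑ u, om u y)) := by ring
          _ = P * ∑ a, (if tr2 hh mm σ a y ≠ 0 then p₁ a else 0) := by rw [h2]
          _ ≤ _ := h1
          _ ≤ _ := h3'
          _ ≤ (1 / Fintype.card U : ℝ) * (2 * (T y + T y')) := by gcongr
          _ = _ := by ring
      exact le_of_mul_le_mul_left this hNinv
    have hTy : T y ≤ (30 / 131072) * Z := by
      have h := hy.2
      have e : 30 * ε * Z = (30 / 131072) * Z := by rw [hε2]; ring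
      exact h.trans (le_of_eq e)
    have hTy' : T y' ≤ (30 / 131072) * Z := by
      have h := hy'.2
      have e : 30 * ε * Z = (30 / 131072) * Z := by rw [hε2]; ring
      exact h.trans (le_of_eq e)
    have h8 : Z / 2 ≤ ∑ u, om u y := by
      refine le_trans ?_ h5
      clear_value Z T
      linarith
    have h9 : P * (Z / 2) ≤ T y + T y' := le_trans (by gcongr) h7
    have h11 : P ≤ 120 / 131072 := by
      have : P * (Z / 2) ≤ (120 / 131072) * (Z / 2) := by
        clear_value Z T P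
        linarith
      exact le_of_mul_le_mul_right this (by positivity)
    clear_value P
    linarith
  have hmpos : 0 < m := by rw [hmdef]; omega
  have hRy : ∀ y, π y ≠ 0 → ∀ j, R u₀ (y j) := by
    intro y hy j
    refine hu₀ _ fun hz => hy ?_
    exact Finset.prod_eq_zero (Finset.mem_univ j) hz
  refine nonvanish π hπ0 hπ1 m hmpos (fun b y => h (ω b) y) (fun b y => hval _ _) G y₀ hGm ?_ ?_
  · intro y hy
    have := hω ⟨u₀, Sum.inl (fun j => ⟨y j, hRy y hy.1 j⟩, fun j => ⟨y₀ j, hRy y₀ hy₀.1 j⟩)⟩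
    refine lt_of_le_of_lt (Nat.mul_le_mul_left 5 (Finset.card_le_card ?_)) this
    intro b hb
    have hb' : h (ω b) y ≠ h (ω b) y₀ := by simpa using hb
    have hSb : S ⟨u₀, Sum.inl (fun j => ⟨y j, hRy y hy.1 j⟩, fun j => ⟨y₀ j, hRy y₀ hy₀.1 j⟩)⟩ (ω b) :=
      ⟨hb', hsmall1 y y₀ hy hy₀⟩
    simpa using hSb
  · have := hω ⟨u₀, Sum.inr (fun j => ⟨y₀ j, hRy y₀ hy₀.1 j⟩)⟩
    refine lt_of_le_of_lt (Nat.mul_le_mul_left 5 (Finset.card_le_card ?_)) this
    intro b hb
    have hb' : h (ω b) y₀ = 0 := by simpa using hb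
    have hSb : S ⟨u₀, Sum.inr (fun j => ⟨y₀ j, hRy y₀ hy₀.1 j⟩)⟩ (ω b) := ⟨hb', hsmall0 y₀ hy₀.1⟩
    simpa using hSb

end Pool.Agent.H317I
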