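import Pool.Agent.H317I.Trial

set_option autoImplicit false
open Finset

namespace Pool.Agent.H317I

section
variable {U W : Type} [Fintype W] (R : U → W → Prop) (μ : W → ℝ)

open Classical in
/-- mean of one factor -/
noncomputable def av (q : ℝ) (u : U) : ℝ := ∑ w, μ w * (if R u w then 1 else q)

open Classical in
theorem pow_miss {k : ℕ} (q : ℝ) (u : U) (y : Fin k → W) :
    q ^ miss R u y = ∏ j, (if R u (y j) then (1 : ℝ) else q) := by
  unfold miss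
  rw [Finset.prod_ite, Finset.prod_const_one, one_mul, Finset.prod_const]

theorem mean_pow {k : ℕ} (q : ℝ) (u : U) :
    ∑ y : Fin k → W, (∏ j, μ (y j)) * q ^ miss R u y = av R μ q u ^ k := by
  classical
  unfold av
  rw [Fintype.sum_pow]
  refine Finset.sum_congr rfl fun y _ => ?_
  rw [pow_miss, ← Finset.prod_mul_distrib]

theorem sum_prob {k : ℕ} (h1 : ∑ w, μ w = 1) : ∑ y : Fin k → W, (∏ j, μ (y j)) = 1 := by
  rw [← Fintype.sum_pow, h1, one_pow]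

open Classical in
theorem av_eq (h1 : ∑ w, μ w = 1) (q : ℝ) (u : U) :
    av R μ q u = 1 - (1 - q) * ∑ w, (if R u w then 0 else μ w) := by
  unfold av
  have e : (1 : ℝ) - (1 - q) * ∑ w, (if R u w then 0 else μ w)
      = ∑ w, μ w - (1 - q) * ∑ w, (if R u w then 0 else μ w) := by rw [h1]
  rw [e, Finset.mul_sum, ← Finset.sum_sub_distrib]
  refine Finset.sum_congr rfl fun w _ => ?_
  split_ifs <;> ring

theorem mean_abs (h0 : ∀ w, 0 ≤ μ w) (h1 : ∑ w, μ w = 1) (u : U) (K k : ℕ) (hK : 2 ≤ K) (ε : ℝ) (hε : 0 < ε)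
    (hε1 : ε ^ 2 ≤ 1)
    (hk : 2 * (k : ℝ) ≤ ε ^ 2 * (K : ℝ) ^ 2) :
    ∑ y : Fin k → W, (∏ j, μ (y j)) * |(1 - 1 / (K : ℝ)) ^ miss R u y - av R μ (1 - 1 / (K : ℝ)) u ^ k|
      ≤ ε * av R μ (1 - 1 / (K : ℝ)) u ^ k := by
  classical
  set q : ℝ := 1 - 1 / (K : ℝ) with hq
  set δ : ℝ := ∑ w, (if R u w then 0 else μ w) with hδ
  have hK' : (2 : ℝ) ≤ K := by exact_mod_cast hK
  have hKpos : (0 : ℝ) < K := by linarith
  have hδ0 : 0 ≤ δ := Finset.sum_nonneg fun w _ => by split_ifs <;> simp [h0 w]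
  have hδ1 : δ ≤ 1 := by
    rw [← h1]
    refine Finset.sum_le_sum fun w _ => ?_
    have := h0 w
    split_ifs <;> simp [this]
  have ha : av R μ q u = 1 - δ / K := by
    rw [av_eq R μ h1]; rw [← hδ, hq]; ring
  have hb : av R μ (q ^ 2) u = 1 - δ * (2 / K - 1 / K ^ 2) := by
    rw [av_eq R μ h1]; rw [← hδ, hq]; ring
  set a : ℝ := av R μ q u with hadef
  have hinv : 1 / (K : ℝ) ≤ 1 / 2 := by
    apply one_div_le_one_div_of_le <;> linarith
  have hdK : δ / K ≤ 1 / 2 := by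
    calc δ / K ≤ 1 / K := by gcongr
      _ ≤ 1 / 2 := hinv
  have ha2 : 1 / 2 ≤ a := by rw [ha]; linarith
  have hapos : 0 < a := by linarith
  have hbb : av R μ (q ^ 2) u ≤ a ^ 2 * (1 + 1 / K ^ 2) := by
    rw [hb]
    have e1 : a ^ 2 * (1 + 1 / (K : ℝ) ^ 2) = a ^ 2 + a ^ 2 * (1 / (K : ℝ) ^ 2) := by ring
    rw [e1]
    have h14 : 1 / 4 ≤ a ^ 2 := by nlinarith
    have h3 : 1 / 4 * (1 / (K : ℝ) ^ 2) ≤ a ^ 2 * (1 / (K : ℝ) ^ 2) := by gcongr
    have h4 : 1 - δ * (2 / (K : ℝ) - 1 / (K : ℝ) ^ 2) = a ^ 2 + (δ - δ ^ 2) * (1 / (K : ℝ) ^ 2) := by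
      rw [ha]; ring
    rw [h4]
    have h5 : (δ - δ ^ 2) * (1 / (K : ℝ) ^ 2) ≤ 1 / 4 * (1 / (K : ℝ) ^ 2) := by
      gcongr
      nlinarith [sq_nonneg (δ - 1 / 2)]
    linarith
  have hb0 : 0 ≤ av R μ (q ^ 2) u := by
    unfold av
    refine Finset.sum_nonneg fun w _ => mul_nonneg (h0 w) ?_
    split_ifs
    · norm_num
    · positivity
  have hexp : (1 + 1 / (K : ℝ) ^ 2) ^ k ≤ 1 + ε ^ 2 := by
    set x : ℝ := (k : ℝ) / (K : ℝ) ^ 2 with hx
    have hx0 : 0 ≤ x := by positivity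
    have hx1 : 2 * x ≤ ε ^ 2 := by
      rw [hx, ← mul_div_assoc, div_le_iff₀ (by positivity)]; exact hk
    have hx2 : x ≤ 1 / 2 := by linarith
    have h3 : (1 + 1 / (K : ℝ) ^ 2) ^ k ≤ Real.exp x := by
      have : 1 + 1 / (K : ℝ) ^ 2 ≤ Real.exp (1 / (K : ℝ) ^ 2) := by
        have := Real.add_one_le_exp (1 / (K : ℝ) ^ 2); linarith
      calc (1 + 1 / (K : ℝ) ^ 2) ^ k ≤ (Real.exp (1 / (K : ℝ) ^ 2)) ^ k := by gcongr
        _ = Real.exp x := by rw [← Real.exp_nat_mul, hx]; congr 1; ring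
    have h4 : Real.exp x ≤ 1 + 2 * x := by
      have h5 : 1 - x ≤ Real.exp (-x) := by
        have := Real.add_one_le_exp (-x); linarith
      have h6 : Real.exp x * Real.exp (-x) = 1 := by rw [← Real.exp_add]; simp
      have h7 : 0 < Real.exp x := Real.exp_pos x
      have h8 : Real.exp x * (1 - x) ≤ 1 := by
        calc Real.exp x * (1 - x) ≤ Real.exp x * Real.exp (-x) := by gcongr
          _ = 1 := h6
      nlinarith
    linarith
  have hbk : av R μ (q ^ 2) u ^ k ≤ (a ^ k) ^ 2 * (1 + ε ^ 2) := by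
    calc av R μ (q ^ 2) u ^ k ≤ (a ^ 2 * (1 + 1 / K ^ 2)) ^ k := pow_le_pow_left₀ hb0 hbb k
      _ = (a ^ k) ^ 2 * (1 + 1 / (K : ℝ) ^ 2) ^ k := by rw [mul_pow, ← pow_mul, ← pow_mul, mul_comm 2 k]
      _ ≤ (a ^ k) ^ 2 * (1 + ε ^ 2) := by gcongr
  set A : ℝ := a ^ k with hA
  have hApos : 0 < A := by positivity
  set c : ℝ := ε * A with hc
  have hcpos : 0 < c := by positivity
  have hpt : ∀ y : Fin k → W, (∏ j, μ (y j)) * |q ^ miss R u y - A|
      ≤ (∏ j, μ (y j)) * ((q ^ 2) ^ miss R u y) * (1 / (2 * c)) - (∏ j, μ (y j)) * (q ^ miss R u y) * (A / c)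
        + (∏ j, μ (y j)) * (A ^ 2 / (2 * c) + c / 2) := by
    intro y
    have hπ : 0 ≤ ∏ j, μ (y j) := Finset.prod_nonneg fun j _ => h0 _
    set x : ℝ := q ^ miss R u y with hx
    have e1 : (q ^ 2) ^ miss R u y = x ^ 2 := by rw [hx, ← pow_mul, ← pow_mul, mul_comm]
    rw [e1]
    have hamgm : |x - A| ≤ (x - A) ^ 2 / (2 * c) + c / 2 := by
      have : 0 ≤ (|x - A| - c) ^ 2 := sq_nonneg _
      rw [← sq_abs (x - A)]
      rw [div_add_div _ _ (by positivity) (by norm_num), le_div_iff₀ (by positivity)]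
      nlinarith
    calc (∏ j, μ (y j)) * |x - A| ≤ (∏ j, μ (y j)) * ((x - A) ^ 2 / (2 * c) + c / 2) := by gcongr
      _ = _ := by field_simp; ring
  refine (Finset.sum_le_sum fun y _ => hpt y).trans ?_
  rw [Finset.sum_add_distrib, Finset.sum_sub_distrib, ← Finset.sum_mul, ← Finset.sum_mul, ← Finset.sum_mul,
    mean_pow, mean_pow, sum_prob μ h1]
  rw [← hadef, ← hA]
  have e2 : av R μ (q ^ 2) u ^ k * (1 / (2 * c)) ≤ (A ^ 2 * (1 + ε ^ 2)) * (1 / (2 * c)) := by gcongr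
  have e3 : (A ^ 2 * (1 + ε ^ 2)) * (1 / (2 * c)) - A * (A / c) + 1 * (A ^ 2 / (2 * c) + c / 2) = ε * A := by
    rw [hc]; field_simp; ring
  linarith

end

end Pool.Agent.H317I
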