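import Pool.Agent.H317I.Core

set_option autoImplicit false
open Finset

namespace Pool.Agent.H317I

theorem assemble' {P U W : Type} [Fintype P] [Fintype W] (s : P → P) (hs : ∀ p, s (s p) = p)
    (τ : W → W) (hτ : ∀ v, τ (τ v) = v)
    (R : U → W → Prop)
    (w : P → W) (hw : ∀ p, w (s p) = τ (w p))
    (k n : ℕ) (h : (Fin k → W) → Fin (n + 1) → ℝ)
    (hodd : ∀ y b, h (fun j => τ (y j)) b = - h y b)
    (hnz : ∀ μ : W → ℝ, (∀ w, 0 ≤ μ w) → ∑ w, μ w = 1 → (∃ u, ∀ w, μ w ≠ 0 → R u w) →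
        ∃ b, ∑ y : Fin k → W, (∏ j, μ (y j)) * h y b ≠ 0)
    (X : Set (P → ℝ)) (hX : ∀ f ∈ X, (∀ p, 0 ≤ f p) ∧ ∑ p, f p = 1 ∧ ∃ u, ∀ p, f p ≠ 0 → R u (w p)) :
    ∃ g : (P → ℝ) → EuclideanSpace ℝ (Fin (n + 1)),
      ContinuousOn g X ∧ ∀ f ∈ X, ‖g f‖ = 1 ∧ g (fun p => f (s p)) = - g f := by
  classical
  let mu : (P → ℝ) → W → ℝ := fun f v => ∑ p, if w p = v then f p else 0
  let F : (P → ℝ) → EuclideanSpace ℝ (Fin (n + 1)) := fun f =>
    WithLp.toLp 2 (fun b => ∑ y : Fin k → W, (∏ j, mu f (y j)) * h y b)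
  have hmu : ∀ f v, mu (fun p => f (s p)) v = mu f (τ v) := by
    intro f v
    simp only [mu]
    rw [← Equiv.sum_comp (Function.Involutive.toPerm s hs) (fun p => if w p = τ v then f p else 0)]
    refine Finset.sum_congr rfl fun p _ => ?_
    change _ = (if w (s p) = τ v then f (s p) else 0)
    have : (w p = v) ↔ (w (s p) = τ v) := by
      rw [hw]
      constructor
      · intro h; rw [h]
      · intro h; rw [← hτ (w p), h, hτ]
    by_cases h : w p = v
    · rw [if_pos h, if_pos (this.1 h)]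
    · rw [if_neg h, if_neg (fun h' => h (this.2 h'))]
  have hFodd : ∀ f, F (fun p => f (s p)) = - F f := by
    intro f
    ext b
    simp only [F, PiLp.neg_apply]
    have e : ∀ y : Fin k → W, (∏ j, mu (fun p => f (s p)) (y j)) * h y b
        = - ((∏ j, mu f (τ (y j))) * h (fun j => τ (y j)) b) := by
      intro y
      rw [hodd]
      simp only [hmu]
      ring
    simp only [e]
    rw [Finset.sum_neg_distrib]
    congr 1
    let E : (Fin k → W) ≃ (Fin k → W) := Equiv.piCongrRight fun _ => Function.Involutive.toPerm τ hτ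
    exact Equiv.sum_comp E (fun y => (∏ j, mu f (y j)) * h y b)
  have hmucont : ∀ v, Continuous fun f => mu f v := by
    intro v
    simp only [mu]
    refine continuous_finsetSum _ fun p _ => ?_
    by_cases h : w p = v
    · simp only [h, if_true]; exact continuous_apply p
    · simp only [h, if_false]; exact continuous_const
  have hFcont : Continuous F := by
    refine (PiLp.continuous_toLp 2 _).comp ?_
    refine continuous_pi fun b => ?_
    refine continuous_finsetSum _ fun y _ => ?_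
    exact (continuous_finsetProd _ fun j _ => hmucont (y j)).mul continuous_const
  have hFnz : ∀ f ∈ X, F f ≠ 0 := by
    intro f hf hzero
    obtain ⟨h0, h1, u, hu⟩ := hX f hf
    have hmu0 : ∀ v, 0 ≤ mu f v := fun v => Finset.sum_nonneg fun p _ => by
      have := h0 p
      split_ifs <;> simp [this]
    have hmu1 : ∑ v, mu f v = 1 := by
      simp only [mu]
      rw [Finset.sum_comm, ← h1]
      refine Finset.sum_congr rfl fun p _ => ?_
      simp
    have hmuR : ∀ v, mu f v ≠ 0 → R u v := by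
      intro v hv
      by_contra hcon
      apply hv
      simp only [mu]
      refine Finset.sum_eq_zero fun p _ => ?_
      by_cases hp : w p = v
      · rw [if_pos hp]
        by_contra hfp
        exact hcon (hp ▸ hu p hfp)
      · rw [if_neg hp]
    obtain ⟨b, hb⟩ := hnz (mu f) hmu0 hmu1 ⟨u, hmuR⟩
    apply hb
    have := congrFun (congrArg (fun x : EuclideanSpace ℝ (Fin (n + 1)) => (x : Fin (n + 1) → ℝ)) hzero) b
    simpa [F] using this
  refine ⟨fun f => (‖F f‖)⁻¹ • F f, ?_, ?_⟩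
  · have h1 : ContinuousOn (fun f => (‖F f‖)⁻¹) X :=
      ContinuousOn.inv₀ hFcont.norm.continuousOn fun f hf => norm_ne_zero_iff.2 (hFnz f hf)
    exact h1.smul hFcont.continuousOn
  · intro f hf
    refine ⟨?_, ?_⟩
    · rw [norm_smul, norm_inv, norm_norm, inv_mul_cancel₀ (norm_ne_zero_iff.2 (hFnz f hf))]
    · simp only
      rw [hFodd, norm_neg, smul_neg]

theorem assemble {P U W : Type} [Fintype P] [Fintype U] [Fintype W] (s : P → P) (hs : ∀ p, s (s p) = p)
    (σ : U → U) (τ : W → W) (hσ : ∀ u, σ (σ u) = u) (hτ : ∀ v, τ (τ v) = v)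
    (R : U → W → Prop) (hR : ∀ u w, R (σ u) (τ w) ↔ R u w) (hne : ∀ u w, R u w → R (σ u) w → False)
    (w : P → W) (hw : ∀ p, w (s p) = τ (w p))
    (ℓ B : ℕ) (hℓ1 : 1 ≤ ℓ) (hℓ : 2 * (Fintype.card U : ℝ) ≤ Real.exp ((ℓ : ℝ) / 2))
    (hB : Fintype.card W ≤ 2 ^ B) (hU : 0 < Fintype.card U)
    (X : Set (P → ℝ)) (hX : ∀ f ∈ X, (∀ p, 0 ≤ f p) ∧ ∑ p, f p = 1 ∧ ∃ u, ∀ p, f p ≠ 0 → R u (w p)) :
    ∃ g : (P → ℝ) → EuclideanSpace ℝ (Fin (2 * (2 ^ 35 * ℓ * ℓ) * B + 1 + 1)),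
      ContinuousOn g X ∧ ∀ f ∈ X, ‖g f‖ = 1 ∧ g (fun p => f (s p)) = - g f := by
  obtain ⟨h, hodd, hnz⟩ := core σ τ hσ R hR hne ℓ B hℓ1 hℓ hB hU
  exact assemble' s hs τ hτ R w hw (2 ^ 35 * ℓ * ℓ) (2 * (2 ^ 35 * ℓ * ℓ) * B + 1) h hodd hnz X hX

theorem half {P : Type} [Fintype P] [PartialOrder P] (σ : P ≃o P) (hinv : ∀ x, σ (σ x) = x)
    (hfree : ∀ x, σ x ≠ x) (hsep : ∀ x y : P, x ≤ y → σ x ≤ y → False)
    (X : Set (P → ℝ))
    (hX : ∀ f ∈ X, (∀ p, 0 ≤ f p) ∧ ∑ p, f p = 1 ∧ ∃ p₀, ∀ p, f p ≠ 0 → p₀ ≤ p) :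
    ∃ n : ℕ, (n : ℝ) ≤ 2 ^ 43 * Real.log ({x : P | IsMin x}.ncard : ℝ) * Real.log ({x : P | IsMax x}.ncard : ℝ)
        * Real.log ({x : P | IsMin x}.ncard : ℝ) ∧
      ∃ g : (P → ℝ) → EuclideanSpace ℝ (Fin (n + 1)),
        ContinuousOn g X ∧ ∀ f ∈ X, ‖g f‖ = 1 ∧ g (fun p => f (σ p)) = - g f := by
  classical
  rcases isEmpty_or_nonempty P with hP | hP
  · refine ⟨0, ?_, fun _ => 0, continuousOn_const, ?_⟩
    · have : ({x : P | IsMin x} : Set P) = ∅ := Set.eq_empty_of_isEmpty _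
      rw [this]; simp
    · intro f hf
      have := (hX f hf).2.1
      simp at this
  obtain ⟨p₁⟩ := hP
  have hmin : ∀ p : P, ∃ q, q ≤ p ∧ IsMin q := by
    intro p
    obtain ⟨b, hb, hb'⟩ := Finite.exists_le_minimal (α := P) (p := fun _ => True) (a := p) trivial
    exact ⟨b, hb, minimal_true.1 hb'⟩
  have hmax : ∀ p : P, ∃ q, p ≤ q ∧ IsMax q := by
    intro p
    obtain ⟨b, hb, hb'⟩ := Finite.exists_le_maximal (α := P) (p := fun _ => True) (a := p) trivial
    exact ⟨b, hb, maximal_true.1 hb'⟩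
  choose c hc hcmax using hmax
  let U := {x : P // IsMin x}
  let W := {x : P // IsMax x}
  let sU : U → U := fun u => ⟨σ u.1, (OrderIso.isMin_apply σ).2 u.2⟩
  let sW : W → W := fun u => ⟨σ u.1, (OrderIso.isMax_apply σ).2 u.2⟩
  have hsU : ∀ u, sU (sU u) = u := fun u => Subtype.ext (hinv _)
  have hsW : ∀ u, sW (sW u) = u := fun u => Subtype.ext (hinv _)
  let R : U → W → Prop := fun u v => u.1 ≤ v.1
  have hR : ∀ u v, R (sU u) (sW v) ↔ R u v := fun u v => σ.le_iff_le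
  have hne : ∀ u v, R u v → R (sU u) v → False := fun u v h1 h2 => hsep u.1 v.1 h1 h2
  let e : P → ℕ := fun p => (Fintype.equivFin P p : ℕ)
  have hedist : ∀ p, e p ≠ e (σ p) := by
    intro p h
    have : Fintype.equivFin P p = Fintype.equivFin P (σ p) := Fin.ext h
    exact hfree p ((Fintype.equivFin P).injective this).symm
  let cW : P → W := fun p => ⟨c p, hcmax p⟩
  let w : P → W := fun p => if e p < e (σ p) then cW p else sW (cW (σ p))
  have hw : ∀ p, w (σ p) = sW (w p) := by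
    intro p
    simp only [w, hinv]
    rcases lt_or_gt_of_ne (hedist p) with h | h
    · rw [if_neg (not_lt.2 h.le), if_pos h]
    · rw [if_pos h, if_neg (not_lt.2 h.le), hsW]
  have hpw : ∀ p, p ≤ (w p).1 := by
    intro p
    simp only [w]
    split_ifs with h
    · exact hc p
    · have : σ p ≤ c (σ p) := hc (σ p)
      have h2 : σ (σ p) ≤ σ (c (σ p)) := σ.le_iff_le.2 this
      rw [hinv] at h2
      exact h2
  have hcardU : {x : P | IsMin x}.ncard = Fintype.card U := by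
    rw [← Nat.card_coe_set_eq, Nat.card_eq_fintype_card]; rfl
  have hcardW : {x : P | IsMax x}.ncard = Fintype.card W := by
    rw [← Nat.card_coe_set_eq, Nat.card_eq_fintype_card]; rfl
  have hU2 : 2 ≤ Fintype.card U := by
    obtain ⟨u, hu, hu'⟩ := hmin p₁
    have : Nontrivial U := ⟨⟨⟨u, hu'⟩, sU ⟨u, hu'⟩, fun h => hfree u (congrArg Subtype.val h).symm⟩⟩
    exact Fintype.one_lt_card
  have hW2 : 2 ≤ Fintype.card W := by
    have : Nontrivial W := ⟨⟨cW p₁, sW (cW p₁), fun h => hfree (c p₁) (congrArg Subtype.val h).symm⟩⟩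
    exact Fintype.one_lt_card
  rw [hcardU, hcardW]
  set N : ℕ := Fintype.card U with hN
  set M : ℕ := Fintype.card W with hM
  have hNr : (2 : ℝ) ≤ N := by exact_mod_cast hU2
  have hMr : (2 : ℝ) ≤ M := by exact_mod_cast hW2
  have hlog2 : 0.6931 < Real.log 2 := lt_trans (by norm_num) Real.log_two_gt_d9
  have hlog2' : Real.log 2 < 0.6932 := lt_trans Real.log_two_lt_d9 (by norm_num)
  have hlN : Real.log 2 ≤ Real.log N := Real.log_le_log (by norm_num) hNr
  have hlM : Real.log 2 ≤ Real.log M := Real.log_le_log (by norm_num) hMr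
  set ℓ : ℕ := ⌈2 * Real.log (2 * N)⌉₊ with hℓ
  set B : ℕ := ⌈Real.log M / Real.log 2⌉₊ with hB
  have hlog2N : Real.log (2 * N) = Real.log 2 + Real.log N := Real.log_mul (by norm_num) (by positivity)
  have hℓle : (ℓ : ℝ) ≤ 6 * Real.log N := by
    have := (Nat.ceil_lt_add_one (a := 2 * Real.log (2 * N)) (by rw [hlog2N]; linarith)).le
    rw [hlog2N] at this
    rw [hℓ, hlog2N]
    linarith
  have hℓge : 2 * Real.log (2 * N) ≤ (ℓ : ℝ) := Nat.le_ceil _
  have hℓ1 : 1 ≤ ℓ := by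
    rw [hℓ]
    apply Nat.one_le_iff_ne_zero.2
    rw [Ne, Nat.ceil_eq_zero, not_le, hlog2N]
    linarith
  have hBle : (B : ℝ) ≤ 3 * Real.log M := by
    have := (Nat.ceil_lt_add_one (a := Real.log M / Real.log 2) (by positivity)).le
    have h2 : Real.log M / Real.log 2 ≤ 1.4429 * Real.log M := by
      rw [div_le_iff₀ (by linarith)]
      have : 1 ≤ 1.4429 * Real.log 2 := by linarith
      nlinarith
    linarith
  have hBge : Real.log M / Real.log 2 ≤ (B : ℝ) := Nat.le_ceil _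
  have hMB : M ≤ 2 ^ B := by
    have h1 : Real.log M ≤ B * Real.log 2 := by
      rwa [div_le_iff₀ (by linarith)] at hBge
    have h2 : (M : ℝ) ≤ 2 ^ B := by
      rw [← Real.log_le_log_iff (by positivity) (by positivity), Real.log_pow]
      exact h1
    exact_mod_cast h2
  have hℓe : 2 * (N : ℝ) ≤ Real.exp ((ℓ : ℝ) / 2) := by
    rw [← Real.log_le_iff_le_exp (by positivity)]
    linarith
  obtain ⟨g, hg1, hg2⟩ := assemble (fun p => σ p) hinv sU sW hsU hsW R hR hne w hw ℓ B hℓ1 hℓe hMB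
    (by omega) X (by
      intro f hf
      obtain ⟨h0, h1, p₀, hp₀⟩ := hX f hf
      obtain ⟨u, hu, hu'⟩ := hmin p₀
      exact ⟨h0, h1, ⟨u, hu'⟩, fun p hp => hu.trans ((hp₀ p hp).trans (hpw p))⟩)
  refine ⟨2 * (2 ^ 35 * ℓ * ℓ) * B + 1, ?_, g, hg1, hg2⟩
  push_cast
  have hN0 : 0 < Real.log N := by linarith
  have hM0 : 0 < Real.log M := by linarith
  have h1 : (ℓ : ℝ) * ℓ ≤ (6 * Real.log N) * (6 * Real.log N) := by gcongr
  have h2 : (ℓ : ℝ) * ℓ * B ≤ (6 * Real.log N) * (6 * Real.log N) * (3 * Real.log M) := by gcongr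
  have h3 : (0.3 : ℝ) ≤ Real.log N * Real.log N * Real.log M := by
    have h4 : (0.48 : ℝ) ≤ Real.log N * Real.log N := by nlinarith
    nlinarith
  nlinarith

end Pool.Agent.H317I
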