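import Pool.Agent.H317I.Core3
import Pool.Agent.H317I.Poset

set_option autoImplicit false
open Finset

namespace Pool.Agent.H317I

theorem half3 {P : Type} [Fintype P] [PartialOrder P] (σ : P ≃o P) (hinv : ∀ x, σ (σ x) = x)
    (hfree : ∀ x, σ x ≠ x) (hsep : ∀ x y : P, x ≤ y → σ x ≤ y → False)
    (s t : ℕ) (hs : ∀ w : P, IsMax w → {u : P | IsMin u ∧ u ≤ w}.ncard ≤ s)
    (ht : ∀ u : P, IsMin u → {w : P | IsMax w ∧ u ≤ w}.ncard ≤ t)
    (X : Set (P → ℝ))
    (hX : ∀ f ∈ X, (∀ p, 0 ≤ f p) ∧ ∑ p, f p = 1 ∧ ∃ p₀, ∀ p, f p ≠ 0 → p₀ ≤ p) :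
    ∃ n : ℕ, (n : ℝ) ≤ 2 ^ 46 * (Real.log (1 + s) ^ 2 * Real.log (1 + t) +
        Real.log ({x : P | IsMin x}.ncard : ℝ)) ∧
      ∃ g : (P → ℝ) → EuclideanSpace ℝ (Fin (n + 1)),
        ContinuousOn g X ∧ ∀ f ∈ X, ‖g f‖ = 1 ∧ g (fun p => f (σ p)) = - g f := by
  classical
  have hLs0 : 0 ≤ Real.log (1 + (s : ℝ)) := Real.log_nonneg (by linarith [(Nat.cast_nonneg s : (0 : ℝ) ≤ s)])
  have hLt0 : 0 ≤ Real.log (1 + (t : ℝ)) := Real.log_nonneg (by linarith [(Nat.cast_nonneg t : (0 : ℝ) ≤ t)])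
  rcases isEmpty_or_nonempty P with hP | hP
  · refine ⟨0, ?_, fun _ => 0, continuousOn_const, ?_⟩
    · have : ({x : P | IsMin x} : Set P) = ∅ := Set.eq_empty_of_isEmpty _
      rw [this]; simp only [Set.ncard_empty, Nat.cast_zero, Real.log_zero]; positivity
    · intro f hf
      have := (hX f hf).2.1
      simp at this
  obtain ⟨p₁⟩ := hP
  have hmin : ∀ p : P, ∃ q, q ≤ p ∧ IsMin q := by
    intro p
    obtain ⟨b, hb, hb'⟩ := Finite.exists_le_minimal (α := P) (p := fun _ => True) (a := p) trivial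
    exact ⟨b, hb, minimal_true.1 hb'⟩
  have hmax : ∀ p : P, ∃ q, p ≤ q ∧ IsMax q := by
    intro p
    obtain ⟨b, hb, hb'⟩ := Finite.exists_le_maximal (α := P) (p := fun _ => True) (a := p) trivial
    exact ⟨b, hb, maximal_true.1 hb'⟩
  choose c hc hcmax using hmax
  let U := {x : P // IsMin x}
  let W := {x : P // IsMax x}
  let sU : U → U := fun u => ⟨σ u.1, (OrderIso.isMin_apply σ).2 u.2⟩
  let sW : W → W := fun u => ⟨σ u.1, (OrderIso.isMax_apply σ).2 u.2⟩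
  have hsU : ∀ u, sU (sU u) = u := fun u => Subtype.ext (hinv _)
  have hsW : ∀ u, sW (sW u) = u := fun u => Subtype.ext (hinv _)
  let R : U → W → Prop := fun u v => u.1 ≤ v.1
  have hR : ∀ u v, R (sU u) (sW v) ↔ R u v := fun u v => σ.le_iff_le
  have hne : ∀ u v, R u v → R (sU u) v → False := fun u v h1 h2 => hsep u.1 v.1 h1 h2
  let e : P → ℕ := fun p => (Fintype.equivFin P p : ℕ)
  have hedist : ∀ p, e p ≠ e (σ p) := by
    intro p h
    have : Fintype.equivFin P p = Fintype.equivFin P (σ p) := Fin.ext h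
    exact hfree p ((Fintype.equivFin P).injective this).symm
  let cW : P → W := fun p => ⟨c p, hcmax p⟩
  let w : P → W := fun p => if e p < e (σ p) then cW p else sW (cW (σ p))
  have hw : ∀ p, w (σ p) = sW (w p) := by
    intro p
    simp only [w, hinv]
    rcases lt_or_gt_of_ne (hedist p) with h | h
    · rw [if_neg (not_lt.2 h.le), if_pos h]
    · rw [if_pos h, if_neg (not_lt.2 h.le), hsW]
  have hpw : ∀ p, p ≤ (w p).1 := by
    intro p
    simp only [w]
    split_ifs with h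
    · exact hc p
    · have : σ p ≤ c (σ p) := hc (σ p)
      have h2 : σ (σ p) ≤ σ (c (σ p)) := σ.le_iff_le.2 this
      rw [hinv] at h2
      exact h2
  have hcardU : {x : P | IsMin x}.ncard = Fintype.card U := by
    rw [← Nat.card_coe_set_eq, Nat.card_eq_fintype_card]; rfl
  have hU2 : 2 ≤ Fintype.card U := by
    obtain ⟨u, hu, hu'⟩ := hmin p₁
    have : Nontrivial U := ⟨⟨⟨u, hu'⟩, sU ⟨u, hu'⟩, fun h => hfree u (congrArg Subtype.val h).symm⟩⟩
    exact Fintype.one_lt_card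
  have hsR : ∀ v : W, (univ.filter fun u : U => R u v).card ≤ s := by
    intro v
    refine le_trans ?_ (hs v.1 v.2)
    rw [← Finset.card_image_of_injective _ Subtype.val_injective, ← Set.ncard_coe_finset]
    refine Set.ncard_le_ncard ?_ (Set.toFinite _)
    intro x hx
    rw [Finset.mem_coe, Finset.mem_image] at hx
    obtain ⟨u, hu, rfl⟩ := hx
    exact ⟨u.2, (Finset.mem_filter.1 hu).2⟩
  have htR : ∀ u : U, Fintype.card {v : W // R u v} ≤ t := by
    intro u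
    refine le_trans ?_ (ht u.1 u.2)
    rw [Fintype.card_subtype, ← Finset.card_image_of_injective _ Subtype.val_injective, ← Set.ncard_coe_finset]
    refine Set.ncard_le_ncard ?_ (Set.toFinite _)
    intro x hx
    rw [Finset.mem_coe, Finset.mem_image] at hx
    obtain ⟨v, hv, rfl⟩ := hx
    exact ⟨v.2, (Finset.mem_filter.1 hv).2⟩
  obtain ⟨u₁, hu₁, hu₁'⟩ := hmin p₁
  have hRu : R ⟨u₁, hu₁'⟩ (cW p₁) := hu₁.trans (hc p₁)
  have hs1 : 1 ≤ s := by
    refine le_trans ?_ (hsR (cW p₁))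
    exact Finset.card_pos.2 ⟨⟨u₁, hu₁'⟩, Finset.mem_filter.2 ⟨Finset.mem_univ _, hRu⟩⟩
  have ht1 : 1 ≤ t := by
    refine le_trans ?_ (htR ⟨u₁, hu₁'⟩)
    exact Fintype.card_pos_iff.2 ⟨⟨cW p₁, hRu⟩⟩
  rw [hcardU]
  set N : ℕ := Fintype.card U with hN
  have hNr : (2 : ℝ) ≤ N := by exact_mod_cast hU2
  have hsr : (1 : ℝ) ≤ s := by exact_mod_cast hs1
  have htr : (1 : ℝ) ≤ t := by exact_mod_cast ht1
  have hlog2 : 0.6931 < Real.log 2 := lt_trans (by norm_num) Real.log_two_gt_d9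
  have hlog2' : Real.log 2 < 0.6932 := lt_trans Real.log_two_lt_d9 (by norm_num)
  have hlN : Real.log 2 ≤ Real.log N := Real.log_le_log (by norm_num) hNr
  set Ls : ℝ := Real.log (1 + s) with hLs
  set Lt : ℝ := Real.log (1 + t) with hLt
  have hLs2 : Real.log 2 ≤ Ls := Real.log_le_log (by norm_num) (by linarith)
  have hLt2 : Real.log 2 ≤ Lt := Real.log_le_log (by norm_num) (by linarith)
  have hlogs : Real.log s ≤ Ls := Real.log_le_log (by linarith) (by linarith)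
  have hlogt : Real.log t ≤ Lt := Real.log_le_log (by linarith) (by linarith)
  have hlogs0 : 0 ≤ Real.log s := Real.log_nonneg hsr
  have hlogt0 : 0 ≤ Real.log t := Real.log_nonneg htr
  have hlog64 : Real.log (64 * s) = 6 * Real.log 2 + Real.log s := by
    rw [Real.log_mul (by norm_num) (by positivity)]
    congr 1
    rw [show (64 : ℝ) = 2 ^ 6 by norm_num, Real.log_pow]; norm_num
  set ℓ : ℕ := ⌈2 * Real.log (64 * s)⌉₊ with hℓ
  set B : ℕ := ⌈Real.log t / Real.log 2⌉₊ with hB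
  set B₁ : ℕ := ⌈Real.log N / Real.log 2⌉₊ with hB₁
  have hℓle : (ℓ : ℝ) ≤ 16 * Ls := by
    have := (Nat.ceil_lt_add_one (a := 2 * Real.log (64 * s)) (by rw [hlog64]; linarith)).le
    rw [hlog64] at this
    rw [hℓ, hlog64]
    linarith
  have hℓge : 2 * Real.log (64 * s) ≤ (ℓ : ℝ) := Nat.le_ceil _
  have hℓ1 : 1 ≤ ℓ := by
    rw [hℓ]
    apply Nat.one_le_iff_ne_zero.2
    rw [Ne, Nat.ceil_eq_zero, not_le, hlog64]
    linarith
  have hBle : (B : ℝ) ≤ 3 * Lt := by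
    have := (Nat.ceil_lt_add_one (a := Real.log t / Real.log 2) (by positivity)).le
    have h2 : Real.log t / Real.log 2 ≤ 1.4429 * Real.log t := by
      rw [div_le_iff₀ (by linarith)]
      have : 1 ≤ 1.4429 * Real.log 2 := by linarith
      nlinarith
    linarith
  have hB₁le : (B₁ : ℝ) ≤ 3 * Real.log N := by
    have := (Nat.ceil_lt_add_one (a := Real.log N / Real.log 2) (by positivity)).le
    have h2 : Real.log N / Real.log 2 ≤ 1.4429 * Real.log N := by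
      rw [div_le_iff₀ (by linarith)]
      have : 1 ≤ 1.4429 * Real.log 2 := by linarith
      nlinarith
    linarith
  have hpow : ∀ M : ℕ, (1 : ℝ) ≤ M → M ≤ 2 ^ ⌈Real.log M / Real.log 2⌉₊ := by
    intro M hM
    have hge : Real.log M / Real.log 2 ≤ (⌈Real.log M / Real.log 2⌉₊ : ℝ) := Nat.le_ceil _
    have h1 : Real.log M ≤ ⌈Real.log M / Real.log 2⌉₊ * Real.log 2 := by
      rwa [div_le_iff₀ (by linarith)] at hge
    have h2 : (M : ℝ) ≤ 2 ^ ⌈Real.log M / Real.log 2⌉₊ := by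
      rw [← Real.log_le_log_iff (by linarith) (by positivity), Real.log_pow]
      exact h1
    exact_mod_cast h2
  have hℓe : 64 * (s : ℝ) ≤ Real.exp ((ℓ : ℝ) / 2) := by
    rw [← Real.log_le_iff_le_exp (by positivity)]
    linarith
  obtain ⟨h, hodd, hnz⟩ := core3 sU sW hsU R hR hne s t ℓ B B₁ (fun v => by
      convert hsR v) hs1 (fun u => by convert htR u) hℓ1 hℓe
    (hpow t htr) (hpow N (by linarith)) (by omega)
  obtain ⟨g, hg1, hg2⟩ := assemble' (fun p => σ p) hinv sW hsW R w hw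
    (2 * (2 ^ 34 * ℓ * ℓ)) (B₁ + 2 * (2 * (2 ^ 34 * ℓ * ℓ)) * B + 1) h hodd hnz X (by
      intro f hf
      obtain ⟨h0, h1, p₀, hp₀⟩ := hX f hf
      obtain ⟨u, hu, hu'⟩ := hmin p₀
      exact ⟨h0, h1, ⟨u, hu'⟩, fun p hp => hu.trans ((hp₀ p hp).trans (hpw p))⟩)
  refine ⟨B₁ + 2 * (2 * (2 ^ 34 * ℓ * ℓ)) * B + 1, ?_, g, hg1, hg2⟩
  push_cast
  have hN0 : 0 < Real.log N := by linarith
  have h1 : (ℓ : ℝ) * ℓ ≤ (16 * Ls) * (16 * Ls) := by gcongr
  have h2 : (ℓ : ℝ) * ℓ * B ≤ (16 * Ls) * (16 * Ls) * (3 * Lt) := by gcongr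
  have h3 : 0 ≤ Ls ^ 2 * Lt := by positivity
  nlinarith

end Pool.Agent.H317I
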