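import Mathlib

set_option autoImplicit false
open Finset

namespace Pool.Agent.H317I

open Classical in
/-- Selection lemma: independent samples avoid many rare events at once. -/
theorem selection {Ω I : Type} [Fintype Ω] [Fintype I] (p : Ω → ℝ) (hp : ∀ a, 0 ≤ p a)
    (hp1 : ∑ a, p a = 1) (S : I → Ω → Prop)
    (hS : ∀ i, ∑ a, (if S i a then p a else 0) ≤ 1 / 1024) (m : ℕ)
    (hm : Fintype.card I < 2 ^ m) :
    ∃ ω : Fin m → Ω, ∀ i, 5 * (univ.filter fun b => S i (ω b)).card < m := by
  by_contra hcon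
  push Not at hcon
  have h1 : ∀ ω : Fin m → Ω, (1 : ℝ) ≤ ∑ i, (∏ b, (if S i (ω b) then (1024 : ℝ) else 1)) / 4 ^ m := by
    intro ω
    obtain ⟨i, hi⟩ := hcon ω
    have h2 : (1 : ℝ) ≤ (∏ b, (if S i (ω b) then (1024 : ℝ) else 1)) / 4 ^ m := by
      rw [Finset.prod_ite, Finset.prod_const, Finset.prod_const_one, mul_one, le_div_iff₀ (by positivity), one_mul]
      have : (1024 : ℝ) = 4 ^ 5 := by norm_num
      rw [this, ← pow_mul]
      exact pow_le_pow_right₀ (by norm_num) hi
    refine h2.trans (Finset.single_le_sum (f := fun i => (∏ b, (if S i (ω b) then (1024 : ℝ) else 1)) / 4 ^ m) ?_ (Finset.mem_univ i))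
    intro j _
    refine div_nonneg (Finset.prod_nonneg fun b _ => ?_) (by positivity)
    split_ifs <;> norm_num
  have h3 : (1 : ℝ) = ∑ ω : Fin m → Ω, ∏ b, p (ω b) := by
    rw [← Fintype.sum_pow, hp1, one_pow]
  have h4 : (1 : ℝ) ≤ ∑ i : I, (∑ a, p a * (if S i a then (1024 : ℝ) else 1)) ^ m / 4 ^ m := by
    calc (1 : ℝ) = ∑ ω : Fin m → Ω, ∏ b, p (ω b) := h3
      _ ≤ ∑ ω : Fin m → Ω, (∏ b, p (ω b)) * ∑ i, (∏ b, (if S i (ω b) then (1024 : ℝ) else 1)) / 4 ^ m := by
          refine Finset.sum_le_sum fun ω _ => ?_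
          exact le_mul_of_one_le_right (Finset.prod_nonneg fun b _ => hp _) (h1 ω)
      _ = ∑ i : I, (∑ a, p a * (if S i a then (1024 : ℝ) else 1)) ^ m / 4 ^ m := by
          simp_rw [Finset.mul_sum]
          rw [Finset.sum_comm]
          refine Finset.sum_congr rfl fun i _ => ?_
          rw [Fintype.sum_pow, Finset.sum_div]
          refine Finset.sum_congr rfl fun ω _ => ?_
          rw [Finset.prod_mul_distrib, mul_div_assoc]
  have h5 : ∀ i : I, (∑ a, p a * (if S i a then (1024 : ℝ) else 1)) ≤ 2 := by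
    intro i
    have : ∀ a, p a * (if S i a then (1024 : ℝ) else 1) ≤ p a + 1024 * (if S i a then p a else 0) := by
      intro a
      have := hp a
      split_ifs <;> linarith
    calc (∑ a, p a * (if S i a then (1024 : ℝ) else 1)) ≤ ∑ a, (p a + 1024 * (if S i a then p a else 0)) :=
          Finset.sum_le_sum fun a _ => this a
      _ = 1 + 1024 * ∑ a, (if S i a then p a else 0) := by
          rw [Finset.sum_add_distrib, hp1, ← Finset.mul_sum]
      _ ≤ 2 := by have := hS i; linarith
  have h6 : ∀ i : I, (∑ a, p a * (if S i a then (1024 : ℝ) else 1)) ^ m / 4 ^ m ≤ 1 / 2 ^ m := by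
    intro i
    have h0 : 0 ≤ ∑ a, p a * (if S i a then (1024 : ℝ) else 1) := by
      refine Finset.sum_nonneg fun a _ => mul_nonneg (hp a) ?_
      split_ifs <;> norm_num
    have : (∑ a, p a * (if S i a then (1024 : ℝ) else 1)) ^ m ≤ 2 ^ m := pow_le_pow_left₀ h0 (h5 i) m
    rw [div_le_div_iff₀ (by positivity) (by positivity), one_mul]
    calc _ ≤ (2 : ℝ) ^ m * 2 ^ m := by gcongr
      _ = 4 ^ m := by rw [← mul_pow]; norm_num
  have h7 : (1 : ℝ) ≤ Fintype.card I * (1 / 2 ^ m) := by
    refine h4.trans ((Finset.sum_le_sum fun i _ => h6 i).trans ?_)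
    simp
  have h8 : (Fintype.card I : ℝ) < 2 ^ m := by exact_mod_cast hm
  have h9 : (0 : ℝ) < 2 ^ m := by positivity
  rw [mul_one_div, le_div_iff₀ h9, one_mul] at h7
  linarith

open Classical in
/-- First accepted trial: a coupling. -/
theorem firstAccept {Ω₁ Y : Type} [Fintype Ω₁] (p₁ : Ω₁ → ℝ) (hp : ∀ a, 0 ≤ p₁ a)
    (hp1 : ∑ a, p₁ a = 1) (τ : Y → Y) (t : Ω₁ → Y → ℝ)
    (ht : ∀ a y, t a y = 0 ∨ t a y = 1 ∨ t a y = -1) (hodd : ∀ a y, t a (τ y) = - t a y) (J : ℕ) :
    ∃ (Ω : Type) (_ : Fintype Ω) (p : Ω → ℝ) (h : Ω → Y → ℝ), (∀ a, 0 ≤ p a) ∧ ∑ a, p a = 1 ∧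
      (∀ a y, h a y = 0 ∨ h a y = 1 ∨ h a y = -1) ∧ (∀ a y, h a (τ y) = - h a y) ∧
      (∀ y y', (∑ a, if h a y ≠ h a y' then p a else 0) * (∑ a, if t a y ≠ 0 then p₁ a else 0)
        ≤ ∑ a, if t a y ≠ t a y' then p₁ a else 0) ∧
      (∀ y, (∑ a, if h a y = 0 then p a else 0) = (∑ a, if t a y = 0 then p₁ a else 0) ^ J) := by
  induction J with
  | zero =>
    refine ⟨Unit, inferInstance, fun _ => 1, fun _ _ => 0, by simp, by simp, by simp, by simp, ?_, by simp⟩
    intro y y'
    simp only [ne_eq, not_true_eq_false, if_false, Finset.sum_const_zero, zero_mul]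
    exact Finset.sum_nonneg fun a _ => by split_ifs <;> simp [hp a]
  | succ J ih =>
    obtain ⟨Ω, hΩ, p, h, h0, h1, h2, h3, h4, h5⟩ := ih
    refine ⟨Ω₁ × Ω, inferInstance, fun a => p₁ a.1 * p a.2,
      fun a y => if t a.1 y = 0 then h a.2 y else t a.1 y, fun a => mul_nonneg (hp _) (h0 _), ?_, ?_, ?_, ?_, ?_⟩
    · rw [Fintype.sum_prod_type]
      simp only
      simp_rw [← Finset.mul_sum, h1, mul_one]
      exact hp1
    · intro a y
      simp only
      split_ifs with hc
      · exact h2 _ _
      · exact ht _ _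
    · intro a y
      simp only
      rw [hodd]
      by_cases hc : t a.1 y = 0
      · simp [hc, h3]
      · have : ¬ (- t a.1 y = 0) := by simpa using hc
        simp [hc]
    · intro y y'
      set D := ∑ a, if h a y ≠ h a y' then p a else 0 with hD
      set A := ∑ a, if t a y ≠ 0 then p₁ a else 0 with hA
      set Q := ∑ a, if t a y ≠ t a y' then p₁ a else 0 with hQ
      have hD0 : 0 ≤ D := Finset.sum_nonneg fun a _ => by split_ifs <;> simp [h0 a]
      have hA0 : 0 ≤ A := Finset.sum_nonneg fun a _ => by split_ifs <;> simp [hp a]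
      have hQ0 : 0 ≤ Q := Finset.sum_nonneg fun a _ => by split_ifs <;> simp [hp a]
      have hA' : (∑ a, if t a y = 0 then p₁ a else 0) = 1 - A := by
        rw [hA, ← hp1, eq_sub_iff_add_eq, ← Finset.sum_add_distrib]
        refine Finset.sum_congr rfl fun a _ => ?_
        by_cases hc : t a y = 0 <;> simp [hc]
      have hA1 : 0 ≤ 1 - A := by
        rw [← hA']; exact Finset.sum_nonneg fun a _ => by split_ifs <;> simp [hp a]
      have key : (∑ a : Ω₁ × Ω, if (if t a.1 y = 0 then h a.2 y else t a.1 y) ≠ (if t a.1 y' = 0 then h a.2 y' else t a.1 y') then p₁ a.1 * p a.2 else 0) ≤ Q + (1 - A) * D := by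
        rw [Fintype.sum_prod_type]
        have : ∀ a : Ω₁, (∑ b : Ω, if (if t a y = 0 then h b y else t a y) ≠ (if t a y' = 0 then h b y' else t a y') then p₁ a * p b else 0)
            ≤ (if t a y ≠ t a y' then p₁ a else 0) + (if t a y = 0 then p₁ a else 0) * D := by
          intro a
          by_cases he : t a y = t a y'
          · by_cases hz : t a y = 0
            · have hz' : t a y' = 0 := by rw [← he]; exact hz
              simp only [hz, hz', if_true, ne_eq, not_true_eq_false, if_false, zero_add]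
              rw [hD, Finset.mul_sum]
              refine le_of_eq (Finset.sum_congr rfl fun b _ => ?_)
              by_cases hh : h b y = h b y' <;> simp [hh]
            · have hz' : ¬ t a y' = 0 := by rw [← he]; exact hz
              simp [hz', he]
          · simp only [ne_eq, he, not_false_eq_true, if_true]
            have hle : (∑ b : Ω, if ¬ (if t a y = 0 then h b y else t a y) = (if t a y' = 0 then h b y' else t a y') then p₁ a * p b else 0) ≤ ∑ b : Ω, p₁ a * p b := by
              refine Finset.sum_le_sum fun b _ => ?_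
              have := mul_nonneg (hp a) (h0 b)
              split_ifs <;> simp [this]
            rw [← Finset.mul_sum, h1, mul_one] at hle
            have h' : 0 ≤ (if t a y = 0 then p₁ a else 0) * D := by
              refine mul_nonneg ?_ hD0
              split_ifs <;> simp [hp a]
            linarith
        refine (Finset.sum_le_sum fun a _ => this a).trans ?_
        rw [Finset.sum_add_distrib, ← Finset.sum_mul, hA']
      have h4' := h4 y y'
      rw [← hD, ← hA, ← hQ] at h4'
      calc _ ≤ (Q + (1 - A) * D) * A := by gcongr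
        _ = Q * A + (1 - A) * (D * A) := by ring
        _ ≤ Q * A + (1 - A) * Q := by gcongr
        _ = Q := by ring
    · intro y
      rw [pow_succ, ← h5 y, Fintype.sum_prod_type, mul_comm, Finset.sum_mul]
      refine Finset.sum_congr rfl fun a _ => ?_
      by_cases hz : t a y = 0
      · simp only [hz, if_true]
        rw [Finset.mul_sum]
        refine Finset.sum_congr rfl fun b _ => ?_
        split_ifs <;> simp
      · simp [hz]

end Pool.Agent.H317I
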