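import Pool.Agent.H317I.Sel

set_option autoImplicit false
open Finset

namespace Pool.Agent.H317I

/-- weights of the threshold variable on `{0,…,k}` -/
noncomputable def wt (k : ℕ) (q : ℝ) (r : ℕ) : ℝ := if r < k then q ^ r - q ^ (r + 1) else q ^ k

theorem wt_nonneg {k : ℕ} {q : ℝ} (hq0 : 0 ≤ q) (hq1 : q ≤ 1) (r : ℕ) : 0 ≤ wt k q r := by
  unfold wt
  split_ifs
  · rw [sub_nonneg]; exact pow_le_pow_of_le_one hq0 hq1 (Nat.le_succ r)
  · positivity

theorem sum_wt_ge {k : ℕ} {q : ℝ} (j : ℕ) (hj : j ≤ k) :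
    ∑ r ∈ range (k + 1), (if j ≤ r then wt k q r else 0) = q ^ j := by
  obtain ⟨d, rfl⟩ := Nat.exists_eq_add_of_le hj
  induction d generalizing j with
  | zero =>
    rw [Finset.sum_range_succ, Finset.sum_eq_zero]
    · simp [wt]
    · intro r hr
      have := Finset.mem_range.1 hr
      rw [if_neg (by omega)]
  | succ d ih =>
    have h := ih (j + 1) (by omega)
    have e : j + 1 + d = j + (d + 1) := by ring
    rw [e] at h
    have : ∑ r ∈ range (j + (d + 1) + 1), (if j ≤ r then wt (j + (d + 1)) q r else 0)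
        = ∑ r ∈ range (j + (d + 1) + 1), (if j + 1 ≤ r then wt (j + (d + 1)) q r else 0) + wt (j + (d + 1)) q j := by
      have h2 : wt (j + (d + 1)) q j = ∑ r ∈ range (j + (d + 1) + 1), (if r = j then wt (j + (d + 1)) q r else 0) := by
        rw [Finset.sum_ite_eq' (range (j + (d + 1) + 1)) j (fun r => wt (j + (d + 1)) q r)]
        rw [if_pos (Finset.mem_range.2 (by omega))]
      rw [h2, ← Finset.sum_add_distrib]
      refine Finset.sum_congr rfl fun r _ => ?_
      rcases lt_trichotomy r j with h | h | h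
      · rw [if_neg (by omega), if_neg (by omega), if_neg (by omega)]; simp
      · subst h; rw [if_pos le_rfl, if_neg (by omega), if_pos rfl]; simp
      · rw [if_pos (by omega), if_pos (by omega), if_neg (by omega)]; simp
    rw [this, h]
    unfold wt
    rw [if_pos (by omega)]
    ring

theorem sum_wt_fin {k : ℕ} {q : ℝ} (j : ℕ) (hj : j ≤ k) :
    ∑ r : Fin (k + 1), (if j ≤ (r : ℕ) then wt k q r else 0) = q ^ j := by
  rw [← sum_wt_ge (q := q) j hj, Finset.sum_range]

theorem sum_wt_one {k : ℕ} {q : ℝ} : ∑ r : Fin (k + 1), wt k q r = 1 := by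
  have := sum_wt_fin (k := k) (q := q) 0 (Nat.zero_le _)
  simpa using this

open Classical in
theorem sum_wt_diff {k : ℕ} {q : ℝ} (hq0 : 0 ≤ q) (hq1 : q ≤ 1) (i j : ℕ) (hi : i ≤ k) (hj : j ≤ k) :
    ∑ r : Fin (k + 1), (if ¬ (i ≤ (r : ℕ) ↔ j ≤ (r : ℕ)) then wt k q r else 0) = |q ^ i - q ^ j| := by
  wlog hij : i ≤ j generalizing i j with H
  · rw [abs_sub_comm, ← H j i hj hi (by omega)]
    refine Finset.sum_congr rfl fun r _ => ?_
    have : (i ≤ (r : ℕ) ↔ j ≤ (r : ℕ)) ↔ (j ≤ (r : ℕ) ↔ i ≤ (r : ℕ)) := Iff.comm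
    by_cases h : (i ≤ (r : ℕ) ↔ j ≤ (r : ℕ))
    · rw [if_neg (by simpa using h), if_neg (by simpa using this.1 h)]
    · rw [if_pos h, if_pos (fun h' => h (this.2 h'))]
  · rw [abs_of_nonneg (sub_nonneg.2 (pow_le_pow_of_le_one hq0 hq1 hij)), ← sum_wt_fin (q := q) i hi,
      ← sum_wt_fin (q := q) j hj, ← Finset.sum_sub_distrib]
    refine Finset.sum_congr rfl fun r _ => ?_
    by_cases h1 : i ≤ (r : ℕ)
    · by_cases h2 : j ≤ (r : ℕ)
      · simp [h1, h2]
      · simp [h1, h2]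
    · have h2 : ¬ j ≤ (r : ℕ) := by omega
      simp [h1, h2]

open Classical in
/-- number of misses -/
noncomputable def miss {U W : Type} (R : U → W → Prop) {k : ℕ} (u : U) (y : Fin k → W) : ℕ :=
  (univ.filter fun j => ¬ R u (y j)).card

theorem miss_le {U W : Type} (R : U → W → Prop) {k : ℕ} (u : U) (y : Fin k → W) : miss R u y ≤ k := by
  classical
  unfold miss
  exact (Finset.card_le_univ _).trans (by simp)

theorem miss_add {U W : Type} (R : U → W → Prop) (σ : U → U) (hne : ∀ u w, R u w → R (σ u) w → False)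
    {k : ℕ} (u : U) (y : Fin k → W) : k ≤ miss R u y + miss R (σ u) y := by
  classical
  unfold miss
  have : (univ : Finset (Fin k)) ⊆ (univ.filter fun j => ¬ R u (y j)) ∪ (univ.filter fun j => ¬ R (σ u) (y j)) := by
    intro j _
    rw [Finset.mem_union, Finset.mem_filter, Finset.mem_filter]
    by_cases h : R u (y j)
    · exact Or.inr ⟨Finset.mem_univ _, fun h' => hne _ _ h h'⟩
    · exact Or.inl ⟨Finset.mem_univ _, h⟩
  have h2 := (Finset.card_le_card this).trans (Finset.card_union_le _ _)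
  simpa using h2

theorem miss_equiv {U W : Type} (R : U → W → Prop) (σ : U → U) (τ : W → W)
    (hσ : ∀ u, σ (σ u) = u) (hR : ∀ u w, R (σ u) (τ w) ↔ R u w)
    {k : ℕ} (u : U) (y : Fin k → W) : miss R u (fun j => τ (y j)) = miss R (σ u) y := by
  classical
  unfold miss
  congr 1
  ext j
  simp only [Finset.mem_filter, Finset.mem_univ, true_and]
  rw [← hR (σ u) (y j), hσ]

open Classical in
noncomputable def tr {U W : Type} (R : U → W → Prop) (σ : U → U) {k : ℕ} (a : U × Fin (k + 1)) (y : Fin k → W) : ℝ :=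
  (if miss R a.1 y ≤ (a.2 : ℕ) then 1 else 0) - (if miss R (σ a.1) y ≤ (a.2 : ℕ) then 1 else 0)

theorem tr_vals {U W : Type} (R : U → W → Prop) (σ : U → U) {k : ℕ} (a : U × Fin (k + 1)) (y : Fin k → W) :
    tr R σ a y = 0 ∨ tr R σ a y = 1 ∨ tr R σ a y = -1 := by
  unfold tr
  split_ifs <;> simp

theorem tr_odd {U W : Type} (R : U → W → Prop) (σ : U → U) (τ : W → W)
    (hσ : ∀ u, σ (σ u) = u) (hR : ∀ u w, R (σ u) (τ w) ↔ R u w) {k : ℕ} (a : U × Fin (k + 1)) (y : Fin k → W) :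
    tr R σ a (fun j => τ (y j)) = - tr R σ a y := by
  unfold tr
  rw [miss_equiv R σ τ hσ hR, miss_equiv R σ τ hσ hR, hσ]
  ring

section
variable {U W : Type} [Fintype U] (R : U → W → Prop) (σ : U → U) (hσ : ∀ u, σ (σ u) = u)
  (hne : ∀ u w, R u w → R (σ u) w → False) {k : ℕ} {q : ℝ} (hq0 : 0 ≤ q) (hq1 : q ≤ 1)

open Classical in
include hq0 hq1 in
theorem tr_ne_zero (y : Fin k → W) :
    ∑ a : U × Fin (k + 1), (if tr R σ a y ≠ 0 then (1 / Fintype.card U : ℝ) * wt k q a.2 else 0)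
      = (1 / Fintype.card U : ℝ) * ∑ u, |q ^ miss R u y - q ^ miss R (σ u) y| := by
  rw [Fintype.sum_prod_type, Finset.mul_sum]
  refine Finset.sum_congr rfl fun u _ => ?_
  rw [← sum_wt_diff hq0 hq1 _ _ (miss_le R u y) (miss_le R (σ u) y), Finset.mul_sum]
  refine Finset.sum_congr rfl fun r _ => ?_
  unfold tr
  simp only
  by_cases h1 : miss R u y ≤ (r : ℕ) <;> by_cases h2 : miss R (σ u) y ≤ (r : ℕ) <;> simp [h1, h2]

open Classical in
include hq0 hq1 hσ in
theorem tr_diff (y y' : Fin k → W) :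
    ∑ a : U × Fin (k + 1), (if tr R σ a y ≠ tr R σ a y' then (1 / Fintype.card U : ℝ) * wt k q a.2 else 0)
      ≤ (1 / Fintype.card U : ℝ) * (2 * ∑ u, |q ^ miss R u y - q ^ miss R u y'|) := by
  rw [Fintype.sum_prod_type]
  have h1 : ∀ u : U, ∑ r : Fin (k + 1), (if tr R σ (u, r) y ≠ tr R σ (u, r) y' then (1 / Fintype.card U : ℝ) * wt k q r else 0)
      ≤ (1 / Fintype.card U : ℝ) * (|q ^ miss R u y - q ^ miss R u y'| + |q ^ miss R (σ u) y - q ^ miss R (σ u) y'|) := by
    intro u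
    rw [← sum_wt_diff hq0 hq1 _ _ (miss_le R u y) (miss_le R u y'),
      ← sum_wt_diff hq0 hq1 _ _ (miss_le R (σ u) y) (miss_le R (σ u) y'), ← Finset.sum_add_distrib, Finset.mul_sum]
    refine Finset.sum_le_sum fun r _ => ?_
    have hw : 0 ≤ wt k q (r : ℕ) := wt_nonneg hq0 hq1 _
    have hN : (0 : ℝ) ≤ 1 / Fintype.card U := by positivity
    have hNw := mul_nonneg hN hw
    by_cases e1 : (miss R u y ≤ (r : ℕ) ↔ miss R u y' ≤ (r : ℕ))
    · by_cases e2 : (miss R (σ u) y ≤ (r : ℕ) ↔ miss R (σ u) y' ≤ (r : ℕ))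
      · have : tr R σ (u, r) y = tr R σ (u, r) y' := by
          unfold tr; simp only [e1, e2]
        simp [this, e1, e2]
      · have hle : (if tr R σ (u, r) y ≠ tr R σ (u, r) y' then (1 / Fintype.card U : ℝ) * wt k q r else 0) ≤ (1 / Fintype.card U : ℝ) * wt k q r := by
          split_ifs <;> linarith
        refine hle.trans ?_
        rw [if_pos e2]
        gcongr
        split_ifs <;> linarith
    · have hle : (if tr R σ (u, r) y ≠ tr R σ (u, r) y' then (1 / Fintype.card U : ℝ) * wt k q r else 0) ≤ (1 / Fintype.card U : ℝ) * wt k q r := by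
        split_ifs <;> linarith
      refine hle.trans ?_
      rw [if_pos e1]
      gcongr
      split_ifs <;> linarith
  refine (Finset.sum_le_sum fun u _ => h1 u).trans ?_
  rw [← Finset.mul_sum, Finset.sum_add_distrib]
  have h2 : ∑ u, |q ^ miss R (σ u) y - q ^ miss R (σ u) y'| = ∑ u, |q ^ miss R u y - q ^ miss R u y'| :=
    Equiv.sum_comp (Function.Involutive.toPerm σ hσ) (fun u => |q ^ miss R u y - q ^ miss R u y'|)
  rw [h2]
  apply le_of_eq; ring

include hσ hne hq0 hq1 in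
/-- lower bound for the acceptance mass -/
theorem accept_ge (y : Fin k → W) (hk : 2 * (Fintype.card U : ℝ) * q ^ ((k : ℝ) / 2) ≤ 1) (hq : 0 < q)
    (hZ : 1 ≤ ∑ u, q ^ miss R u y) :
    ∑ u, q ^ miss R u y ≤ ∑ u, |q ^ miss R u y - q ^ miss R (σ u) y| := by
  have h1 : ∀ u : U, q ^ miss R u y + q ^ miss R (σ u) y - 2 * q ^ ((k : ℝ) / 2) ≤ |q ^ miss R u y - q ^ miss R (σ u) y| := by
    intro u
    have hadd := miss_add R σ hne u y
    have hmin : ∀ i : ℕ, (k : ℝ) / 2 ≤ i → q ^ i ≤ q ^ ((k : ℝ) / 2) := by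
      intro i hi
      rw [← Real.rpow_natCast]
      exact Real.rpow_le_rpow_of_exponent_ge hq hq1 hi
    by_cases h : (k : ℝ) / 2 ≤ miss R u y
    · have := hmin _ h
      have h' := neg_abs_le (q ^ miss R u y - q ^ miss R (σ u) y)
      linarith
    · have h2 : (k : ℝ) / 2 ≤ miss R (σ u) y := by
        have : (k : ℝ) ≤ miss R u y + miss R (σ u) y := by exact_mod_cast hadd
        linarith
      have := hmin _ h2
      have h' := le_abs_self (q ^ miss R u y - q ^ miss R (σ u) y)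
      linarith
  have h2 := Finset.sum_le_sum fun (u : U) (_ : u ∈ univ) => h1 u
  rw [Finset.sum_sub_distrib, Finset.sum_add_distrib] at h2
  have h3 : ∑ u, q ^ miss R (σ u) y = ∑ u, q ^ miss R u y :=
    Equiv.sum_comp (Function.Involutive.toPerm σ hσ) (fun u => q ^ miss R u y)
  rw [h3] at h2
  simp only [Finset.sum_const, Finset.card_univ, nsmul_eq_mul] at h2
  nlinarith

end

end Pool.Agent.H317I
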