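import Pool.Agent.H317I.Moment

set_option autoImplicit false
open Finset

namespace Pool.Agent.H317I

open Classical in
noncomputable def tr2 {U Y : Type} (h : ℕ) (mm : U → Y → ℕ) (σ : U → U) (a : U × Fin (h + 1)) (y : Y) : ℝ :=
  (if mm a.1 y ≤ (a.2 : ℕ) then 1 else 0) - (if mm (σ a.1) y ≤ (a.2 : ℕ) then 1 else 0)

theorem tr2_vals {U Y : Type} (h : ℕ) (mm : U → Y → ℕ) (σ : U → U) (a : U × Fin (h + 1)) (y : Y) :
    tr2 h mm σ a y = 0 ∨ tr2 h mm σ a y = 1 ∨ tr2 h mm σ a y = -1 := by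
  unfold tr2
  split_ifs <;> simp

theorem tr2_odd {U Y : Type} (h : ℕ) (mm : U → Y → ℕ) (σ : U → U) (τ : Y → Y)
    (hσ : ∀ u, σ (σ u) = u) (hτ : ∀ u y, mm u (τ y) = mm (σ u) y) (a : U × Fin (h + 1)) (y : Y) :
    tr2 h mm σ a (τ y) = - tr2 h mm σ a y := by
  unfold tr2
  rw [hτ, hτ, hσ]
  ring

section
variable {U Y : Type} [Fintype U] (h : ℕ) (mm : U → Y → ℕ) (hmm : ∀ u y, mm u y ≤ h) (σ : U → U)
  (hσ : ∀ u, σ (σ u) = u) {q : ℝ} (hq0 : 0 ≤ q) (hq1 : q ≤ 1)

open Classical in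
include hmm hq0 hq1 in
theorem tr2_ne_zero (y : Y) :
    ∑ a : U × Fin (h + 1), (if tr2 h mm σ a y ≠ 0 then (1 / Fintype.card U : ℝ) * wt h q a.2 else 0)
      = (1 / Fintype.card U : ℝ) * ∑ u, |q ^ mm u y - q ^ mm (σ u) y| := by
  rw [Fintype.sum_prod_type, Finset.mul_sum]
  refine Finset.sum_congr rfl fun u _ => ?_
  rw [← sum_wt_diff hq0 hq1 _ _ (hmm u y) (hmm (σ u) y), Finset.mul_sum]
  refine Finset.sum_congr rfl fun r _ => ?_
  unfold tr2
  simp only
  by_cases h1 : mm u y ≤ (r : ℕ) <;> by_cases h2 : mm (σ u) y ≤ (r : ℕ) <;> simp [h1, h2]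

open Classical in
include hmm hq0 hq1 hσ in
theorem tr2_diff (y y' : Y) :
    ∑ a : U × Fin (h + 1), (if tr2 h mm σ a y ≠ tr2 h mm σ a y' then (1 / Fintype.card U : ℝ) * wt h q a.2 else 0)
      ≤ (1 / Fintype.card U : ℝ) * (2 * ∑ u, |q ^ mm u y - q ^ mm u y'|) := by
  rw [Fintype.sum_prod_type]
  have h1 : ∀ u : U, ∑ r : Fin (h + 1), (if tr2 h mm σ (u, r) y ≠ tr2 h mm σ (u, r) y' then (1 / Fintype.card U : ℝ) * wt h q r else 0)
      ≤ (1 / Fintype.card U : ℝ) * (|q ^ mm u y - q ^ mm u y'| + |q ^ mm (σ u) y - q ^ mm (σ u) y'|) := by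
    intro u
    rw [← sum_wt_diff hq0 hq1 _ _ (hmm u y) (hmm u y'),
      ← sum_wt_diff hq0 hq1 _ _ (hmm (σ u) y) (hmm (σ u) y'), ← Finset.sum_add_distrib, Finset.mul_sum]
    refine Finset.sum_le_sum fun r _ => ?_
    have hw : 0 ≤ wt h q (r : ℕ) := wt_nonneg hq0 hq1 _
    have hN : (0 : ℝ) ≤ 1 / Fintype.card U := by positivity
    have hNw := mul_nonneg hN hw
    by_cases e1 : (mm u y ≤ (r : ℕ) ↔ mm u y' ≤ (r : ℕ))
    · by_cases e2 : (mm (σ u) y ≤ (r : ℕ) ↔ mm (σ u) y' ≤ (r : ℕ))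
      · have : tr2 h mm σ (u, r) y = tr2 h mm σ (u, r) y' := by
          unfold tr2; simp only [e1, e2]
        simp [this, e1, e2]
      · have hle : (if tr2 h mm σ (u, r) y ≠ tr2 h mm σ (u, r) y' then (1 / Fintype.card U : ℝ) * wt h q r else 0) ≤ (1 / Fintype.card U : ℝ) * wt h q r := by
          split_ifs <;> linarith
        refine hle.trans ?_
        rw [if_pos e2]
        gcongr
        split_ifs <;> linarith
    · have hle : (if tr2 h mm σ (u, r) y ≠ tr2 h mm σ (u, r) y' then (1 / Fintype.card U : ℝ) * wt h q r else 0) ≤ (1 / Fintype.card U : ℝ) * wt h q r := by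
        split_ifs <;> linarith
      refine hle.trans ?_
      rw [if_pos e1]
      gcongr
      split_ifs <;> linarith
  refine (Finset.sum_le_sum fun u _ => h1 u).trans ?_
  rw [← Finset.mul_sum, Finset.sum_add_distrib]
  have h2 : ∑ u, |q ^ mm (σ u) y - q ^ mm (σ u) y'| = ∑ u, |q ^ mm u y - q ^ mm u y'| :=
    Equiv.sum_comp (Function.Involutive.toPerm σ hσ) (fun u => |q ^ mm u y - q ^ mm u y'|)
  rw [h2]
  apply le_of_eq; ring

include hmm hσ hq0 hq1 in
theorem accept_eq (hor : ∀ u y, mm u y = h ∨ mm (σ u) y = h) (y : Y) :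
    ∑ u, |q ^ mm u y - q ^ mm (σ u) y| = 2 * ∑ u, (q ^ mm u y - q ^ h) := by
  have h1 : ∀ u : U, |q ^ mm u y - q ^ mm (σ u) y| = (q ^ mm u y - q ^ h) + (q ^ mm (σ u) y - q ^ h) := by
    intro u
    rcases hor u y with h | h
    · rw [h, abs_sub_comm, abs_of_nonneg (sub_nonneg.2 (pow_le_pow_of_le_one hq0 hq1 (hmm _ _)))]; ring
    · rw [h, abs_of_nonneg (sub_nonneg.2 (pow_le_pow_of_le_one hq0 hq1 (hmm _ _)))]; ring
  rw [Finset.sum_congr rfl fun u _ => h1 u, Finset.sum_add_distrib]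
  have h2 : ∑ u, (q ^ mm (σ u) y - q ^ h) = ∑ u, (q ^ mm u y - q ^ h) :=
    Equiv.sum_comp (Function.Involutive.toPerm σ hσ) (fun u => (q ^ mm u y - q ^ h))
  rw [h2]; ring

end

section
variable {U W : Type} [Fintype W] (R : U → W → Prop) (μ : W → ℝ)

open Classical in
/-- mass of the facets containing `u` -/
noncomputable def hit (u : U) : ℝ := ∑ w, (if R u w then μ w else 0)

open Classical in
theorem mean_subset {k : ℕ} (h1 : ∑ w, μ w = 1) (u : U) (S : Finset (Fin k)) :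
    ∑ y : Fin k → W, (∏ j, μ (y j)) * (∏ j ∈ S, (if R u (y j) then (1 : ℝ) else 0)) = hit R μ u ^ S.card := by
  have e : ∀ y : Fin k → W, (∏ j, μ (y j)) * (∏ j ∈ S, (if R u (y j) then (1 : ℝ) else 0))
      = ∏ j, (μ (y j) * (if j ∈ S then (if R u (y j) then (1 : ℝ) else 0) else 1)) := by
    intro y
    rw [Finset.prod_mul_distrib, Finset.prod_ite_mem, Finset.univ_inter]
  rw [Finset.sum_congr rfl fun y _ => e y]
  have := Finset.prod_univ_sum (fun _ : Fin k => (univ : Finset W))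
    (fun j w => μ w * (if j ∈ S then (if R u w then (1 : ℝ) else 0) else 1))
  rw [Fintype.piFinset_univ] at this
  rw [← this]
  have e2 : ∀ j : Fin k, ∑ w, μ w * (if j ∈ S then (if R u w then (1 : ℝ) else 0) else 1)
      = if j ∈ S then hit R μ u else 1 := by
    intro j
    by_cases hj : j ∈ S
    · simp only [hj, if_true]
      unfold hit
      refine Finset.sum_congr rfl fun w _ => ?_
      split_ifs <;> simp
    · simp only [hj, if_false, mul_one]
      exact h1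
  rw [Finset.prod_congr rfl fun j _ => e2 j, Finset.prod_ite_mem, Finset.univ_inter, Finset.prod_const]

open Classical in
theorem tail (h0 : ∀ w, 0 ≤ μ w) (h1 : ∑ w, μ w = 1) (u : U) (h : ℕ) (hp : hit R μ u ≤ 1 / 8) :
    ∑ y : Fin (2 * h) → W, (∏ j, μ (y j)) * (if miss R u y < h then (1 : ℝ) else 0) ≤ hit R μ u * (1 / 2) ^ h := by
  have hhit0 : 0 ≤ hit R μ u := Finset.sum_nonneg fun w _ => by
    have := h0 w
    split_ifs <;> simp [this]
  have hpt : ∀ y : Fin (2 * h) → W, (∏ j, μ (y j)) * (if miss R u y < h then (1 : ℝ) else 0)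
      ≤ ∑ S ∈ Finset.powersetCard (h + 1) (univ : Finset (Fin (2 * h))),
        (∏ j, μ (y j)) * (∏ j ∈ S, (if R u (y j) then (1 : ℝ) else 0)) := by
    intro y
    have hπ : 0 ≤ ∏ j, μ (y j) := Finset.prod_nonneg fun j _ => h0 _
    rw [← Finset.mul_sum]
    refine mul_le_mul_of_nonneg_left ?_ hπ
    have hnn : ∀ S : Finset (Fin (2 * h)), 0 ≤ ∏ j ∈ S, (if R u (y j) then (1 : ℝ) else 0) := fun S =>
      Finset.prod_nonneg fun j _ => by split_ifs <;> norm_num
    split_ifs with hm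
    · have hcard : h + 1 ≤ (univ.filter fun j => R u (y j)).card := by
        have hs := Finset.card_filter_add_card_filter_not (s := (univ : Finset (Fin (2 * h)))) (fun j => R u (y j))
        unfold miss at hm
        rw [Finset.card_univ, Fintype.card_fin] at hs
        omega
      obtain ⟨S, hS1, hS2⟩ := Finset.exists_subset_card_eq hcard
      have hmem : S ∈ Finset.powersetCard (h + 1) (univ : Finset (Fin (2 * h))) :=
        Finset.mem_powersetCard.2 ⟨Finset.subset_univ _, hS2⟩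
      calc (1 : ℝ) = ∏ j ∈ S, (if R u (y j) then (1 : ℝ) else 0) := by
            rw [Finset.prod_congr rfl fun j hj => if_pos (Finset.mem_filter.1 (hS1 hj)).2, Finset.prod_const_one]
        _ ≤ _ := Finset.single_le_sum (f := fun S : Finset (Fin (2 * h)) => ∏ j ∈ S, (if R u (y j) then (1 : ℝ) else 0))
            (fun S _ => hnn S) hmem
    · exact Finset.sum_nonneg fun S _ => hnn S
  refine (Finset.sum_le_sum fun y _ => hpt y).trans ?_
  rw [Finset.sum_comm]
  have e : ∀ S ∈ Finset.powersetCard (h + 1) (univ : Finset (Fin (2 * h))),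
      ∑ y : Fin (2 * h) → W, (∏ j, μ (y j)) * (∏ j ∈ S, (if R u (y j) then (1 : ℝ) else 0)) = hit R μ u ^ (h + 1) := by
    intro S hS
    rw [mean_subset R μ h1, (Finset.mem_powersetCard.1 hS).2]
  rw [Finset.sum_congr rfl e, Finset.sum_const, Finset.card_powersetCard, Finset.card_univ, Fintype.card_fin,
    nsmul_eq_mul]
  have hch : ((2 * h).choose (h + 1) : ℝ) ≤ 4 ^ h := by
    have : (2 * h).choose (h + 1) ≤ 2 ^ (2 * h) := Nat.choose_le_two_pow _ _
    calc ((2 * h).choose (h + 1) : ℝ) ≤ ((2 ^ (2 * h) : ℕ) : ℝ) := by exact_mod_cast this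
      _ = 4 ^ h := by push_cast; rw [pow_mul]; norm_num
  have h4 : (4 * hit R μ u) ^ h ≤ (1 / 2) ^ h := by
    refine pow_le_pow_left₀ (by positivity) ?_ h
    linarith
  calc ((2 * h).choose (h + 1) : ℝ) * hit R μ u ^ (h + 1) ≤ 4 ^ h * hit R μ u ^ (h + 1) := by gcongr
    _ = hit R μ u * (4 * hit R μ u) ^ h := by rw [mul_pow, pow_succ]; ring
    _ ≤ hit R μ u * (1 / 2) ^ h := by gcongr

end

end Pool.Agent.H317I
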